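import Pool.Agent.H564.LH.Noise

/-! The noise of a sparse random sample of the integers in all residue classes, with the weight `Λ`. -/

set_option autoImplicit false

namespace Pool.Agent.H564.MG

open Finset Filter Topology MeasureTheory ProbabilityTheory
open Pool.Agent.H564.BSD (wt)
open Pool.Agent.H564.LH (Dens)
open ArithmeticFunction (vonMangoldt)

/-- the integers below `n` in the class `l` modulo `d` -/
def cla (n d l : ℕ) : Finset ℕ := (range n).filter fun i => i % d = l % d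

theorem cla_card {n d l : ℕ} (hd : 0 < d) : ((cla n d l).card : ℝ) ≤ n / d + 1 := by
  have h1 : cla n d l = (range n).filter fun p => p ≡ l [MOD d] := rfl
  have h2 : ((range n).filter fun p => p ≡ l [MOD d]).card ≤ n / d + 1 := by
    rw [← Nat.count_eq_card_filter_range, Nat.count_modEq_card _ hd]
    split_ifs <;> omega
  have h3 : (((n / d : ℕ) : ℝ)) ≤ (n : ℝ) / d := Nat.cast_div_le
  have h4 : ((cla n d l).card : ℝ) ≤ ((n / d + 1 : ℕ) : ℝ) := by
    rw [h1]
    exact_mod_cast h2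
  push_cast at h4
  linarith

theorem cla_mod (n d l : ℕ) : cla n d l = cla n d (l % d) := by
  unfold cla
  rw [Nat.mod_mod]

/-- the normalised coefficients -/
noncomputable def uu (N i : ℕ) : ℝ := if i ≤ N then vonMangoldt i / Real.log ((N : ℝ) + 2) else 0

theorem uu_le (N i : ℕ) : |uu N i| ≤ 1 := by
  have h0 : 0 < Real.log ((N : ℝ) + 2) := Real.log_pos (by linarith [Nat.cast_nonneg (α := ℝ) N])
  unfold uu
  split_ifs with h
  · rw [abs_of_nonneg (div_nonneg ArithmeticFunction.vonMangoldt_nonneg h0.le), div_le_one h0]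
    refine ArithmeticFunction.vonMangoldt_le_log.trans ?_
    rcases Nat.eq_zero_or_pos i with hi | hi
    · rw [hi, Nat.cast_zero, Real.log_zero]
      exact h0.le
    · refine Real.log_le_log (by exact_mod_cast hi) ?_
      have : (i : ℝ) ≤ N := by exact_mod_cast h
      linarith
  · rw [abs_zero]
    exact zero_le_one

variable {Ω : Type*} [mΩ : MeasurableSpace Ω] {μ : Measure Ω} [IsProbabilityMeasure μ]
  {A : ℕ → Set Ω} {δ : ℕ → ℝ} {η : ℝ}

/-- **The noise in all classes.** -/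
theorem noise_lam (hA : ∀ p, MeasurableSet (A p)) (hind : iIndepSet A μ)
    (hδ0 : ∀ p, 0 < δ p) (hδ1 : ∀ p, δ p ≤ 1) (hμ : ∀ p, μ (A p) = ENNReal.ofReal (δ p))
    (hη : 0 ≤ η) (hd : Dens δ η) :
    ∀ᵐ ω ∂μ, ∀ ε : ℝ, 0 < ε → ∀ᶠ N : ℕ in atTop, ∀ n ≤ N + 1, ∀ d : ℕ, 1 ≤ d → d ≤ N → ∀ l : ℕ,
      |∑ p ∈ cla n d l, (wt A δ ω p - 1) * vonMangoldt p| ≤
        (N : ℝ) ^ ε * (√((N : ℝ) ^ (1 + 2 * η) / d) + (N : ℝ) ^ (2 * η)) := by
  have key : ∀ e : ℝ, 0 < e → ∀ᵐ ω ∂μ, ∀ᶠ N : ℕ in atTop, ∀ n ≤ N + 1, ∀ d : ℕ, 1 ≤ d → d ≤ N →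
      ∀ l : ℕ, |∑ p ∈ cla n d l, (wt A δ ω p - 1) * vonMangoldt p| ≤
        (N : ℝ) ^ (2 * e) * (√((N : ℝ) ^ (1 + 2 * η) / d) + (N : ℝ) ^ (2 * η)) := by
    intro e he
    obtain ⟨C₀, hC₀, hinv⟩ := hd.inv_le hδ0 hη he
    set C₁ : ℝ := max C₀ 1 with hC₁
    have hC₁1 : 1 ≤ C₁ := le_max_right _ _
    have hC₁0 : 0 < C₁ := by linarith
    -- bound of the weights
    set M : ℕ → ℝ := fun N => C₁ * ((N : ℝ) + 1) ^ (2 * η + e) with hM
    have hM1 : ∀ N, 1 ≤ M N := by
      intro N
      have h1 : 1 ≤ ((N : ℝ) + 1) ^ (2 * η + e) :=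
        Real.one_le_rpow (by linarith [Nat.cast_nonneg (α := ℝ) N]) (by linarith)
      simp only [hM]
      nlinarith
    have hMb : ∀ N n d l : ℕ, n ≤ N + 1 → ∀ p ∈ cla n d l, 1 / δ p ≤ M N := by
      intro N n d l hn p hp
      simp only [cla, mem_filter, mem_range] at hp
      have h1 := hinv p
      have h2 : (p : ℝ) ≤ (N : ℝ) := by exact_mod_cast (by omega : p ≤ N)
      refine h1.trans (mul_le_mul (le_max_left _ _) ?_ (by positivity) hC₁0.le)
      exact Real.rpow_le_rpow (by positivity) (by linarith) (by linarith)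
    set R : ℕ → ℕ → ℝ := fun N d => √(M N * (((N : ℝ) + 1) / d + 1)) + M N with hR
    have hR1 : ∀ N d, 1 ≤ R N d := fun N d => by
      simp only [hR]
      linarith [hM1 N, Real.sqrt_nonneg (M N * (((N : ℝ) + 1) / d + 1))]
    have hRV : ∀ N n d l : ℕ, 1 ≤ d → n ≤ N + 1 → ∑ p ∈ cla n d l, 1 / δ p ≤ R N d ^ 2 := by
      intro N n d l hd1 hn
      have hd0 : (0 : ℝ) < d := by exact_mod_cast hd1
      have h1 : ∑ p ∈ cla n d l, 1 / δ p ≤ (((N : ℝ) + 1) / d + 1) * M N := by
        refine (sum_le_card_nsmul _ _ _ (hMb N n d l hn)).trans ?_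
        rw [nsmul_eq_mul]
        refine mul_le_mul_of_nonneg_right ?_ (by linarith [hM1 N])
        refine (cla_card hd1).trans ?_
        have : (n : ℝ) ≤ (N : ℝ) + 1 := by exact_mod_cast hn
        gcongr
      have h2 : (0 : ℝ) ≤ M N * (((N : ℝ) + 1) / d + 1) := by
        have := hM1 N
        positivity
      refine h1.trans ?_
      have h3 := Real.sq_sqrt h2
      have h4 := Real.sqrt_nonneg (M N * (((N : ℝ) + 1) / d + 1))
      have h5 := hM1 N
      simp only [hR]
      nlinarith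
    -- one sum
    have hone : ∀ (σ : ℝ), |σ| ≤ 1 → ∀ N n d l : ℕ, 1 ≤ d → n ≤ N + 1 → ∀ a : ℝ,
        μ.real {ω | R N d * a ≤ ∑ p ∈ cla n d l, (wt A δ ω p - 1) * (σ * uu N p)} ≤
          Real.exp (1 - a) := by
      intro σ hσ N n d l hd1 hn a
      have hR0 : 0 < R N d := by linarith [hR1 N d]
      refine (Pool.Agent.H564.SC.chernoff hA hind hδ0 hδ1 hμ (fun p => σ * uu N p)
        (fun p => by
          rw [abs_mul]
          calc |σ| * |uu N p| ≤ 1 * 1 := mul_le_mul hσ (uu_le N p) (abs_nonneg _) zero_le_one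
            _ = 1 := one_mul 1) (cla n d l)
        (l := 1 / R N d) (by positivity) ?_ (R N d * a)).trans ?_
      · intro p hp
        have h1 := hMb N n d l hn p hp
        have h2 : M N ≤ R N d := by
          simp only [hR]
          linarith [Real.sqrt_nonneg (M N * (((N : ℝ) + 1) / d + 1))]
        rw [div_div, div_le_one (by have := hδ0 p; positivity)]
        rw [div_le_iff₀ (hδ0 p)] at h1
        have := hδ0 p
        nlinarith
      · refine Real.exp_le_exp.2 ?_
        have h1 := hRV N n d l hd1 hn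
        have h2 : (1 / R N d) ^ 2 * ∑ p ∈ cla n d l, 1 / δ p ≤ 1 := by
          rw [div_pow, one_pow, div_mul_eq_mul_div, one_mul, div_le_one (by positivity)]
          exact h1
        have h3 : 1 / R N d * (R N d * a) = a := by field_simp
        linarith
    -- the exceptional events
    set a : ℕ → ℝ := fun N => 5 * Real.log ((N : ℝ) + 2) with ha
    set E : ℕ → Set Ω := fun N => ⋃ i : Fin (N + 2) × Fin N × Fin N,
      {ω | R N (i.2.1 + 1) * a N ≤ ∑ p ∈ cla i.1 (i.2.1 + 1) i.2.2, (wt A δ ω p - 1) * (1 * uu N p)} ∪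
      {ω | R N (i.2.1 + 1) * a N ≤ ∑ p ∈ cla i.1 (i.2.1 + 1) i.2.2, (wt A δ ω p - 1) * (-1 * uu N p)}
      with hE
    have hexp : ∀ N : ℕ, Real.exp (1 - a N) = Real.exp 1 * (((N : ℝ) + 2) ^ 5)⁻¹ := by
      intro N
      have h0 : (0 : ℝ) < (N : ℝ) + 2 := by positivity
      rw [Real.exp_sub, div_eq_mul_inv]
      congr 2
      simp only [ha]
      rw [mul_comm, Real.exp_mul, Real.exp_log h0, ← Real.rpow_natCast]
      norm_num
    have hEμ : ∀ N, μ (E N) ≤ ENNReal.ofReal (2 * Real.exp 1 * (((N : ℝ) + 2) ^ 2)⁻¹) := by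
      intro N
      set b : ℝ := Real.exp 1 * (((N : ℝ) + 2) ^ 5)⁻¹ with hb
      have hb0 : 0 ≤ b := by positivity
      have h1 : ∀ σ : ℝ, |σ| ≤ 1 → ∀ i : Fin (N + 2) × Fin N × Fin N,
          μ {ω | R N (i.2.1 + 1) * a N ≤ ∑ p ∈ cla i.1 (i.2.1 + 1) i.2.2, (wt A δ ω p - 1) * (σ * uu N p)} ≤
            ENNReal.ofReal b := by
        intro σ hσ i
        rw [← ofReal_measureReal]
        refine ENNReal.ofReal_le_ofReal ?_
        refine (hone σ hσ N i.1 (i.2.1 + 1) i.2.2 (by omega) (by omega) (a N)).trans ?_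
        rw [hexp N]
      refine (measure_iUnion_fintype_le _ _).trans ?_
      have h4 : ∀ i : Fin (N + 2) × Fin N × Fin N,
          μ ({ω | R N (i.2.1 + 1) * a N ≤ ∑ p ∈ cla i.1 (i.2.1 + 1) i.2.2, (wt A δ ω p - 1) * (1 * uu N p)} ∪
            {ω | R N (i.2.1 + 1) * a N ≤
              ∑ p ∈ cla i.1 (i.2.1 + 1) i.2.2, (wt A δ ω p - 1) * (-1 * uu N p)}) ≤
          ENNReal.ofReal (2 * b) := by
        intro i
        have e4 : ENNReal.ofReal (2 * b) = ENNReal.ofReal b + ENNReal.ofReal b := by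
          rw [← ENNReal.ofReal_add hb0 hb0]
          congr 1
          ring
        rw [e4]
        exact (measure_union_le _ _).trans (add_le_add (h1 1 (by norm_num) i)
          (h1 (-1) (by norm_num) i))
      refine (sum_le_sum fun i _ => h4 i).trans ?_
      rw [sum_const, card_univ, nsmul_eq_mul, ← ENNReal.ofReal_natCast, ← ENNReal.ofReal_mul
        (Nat.cast_nonneg _)]
      refine ENNReal.ofReal_le_ofReal ?_
      have h5 : (Fintype.card (Fin (N + 2) × Fin N × Fin N) : ℝ) ≤ ((N : ℝ) + 2) ^ 3 := by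
        rw [Fintype.card_prod, Fintype.card_prod, Fintype.card_fin, Fintype.card_fin]
        push_cast
        have hN : (0 : ℝ) ≤ N := Nat.cast_nonneg N
        have : (N : ℝ) * N ≤ ((N : ℝ) + 2) ^ 2 := by nlinarith
        calc ((N : ℝ) + 2) * (N * N) ≤ ((N : ℝ) + 2) * ((N : ℝ) + 2) ^ 2 :=
              mul_le_mul_of_nonneg_left this (by positivity)
          _ = _ := by ring
      calc (Fintype.card (Fin (N + 2) × Fin N × Fin N) : ℝ) * (2 * b) ≤
            ((N : ℝ) + 2) ^ 3 * (2 * b) := mul_le_mul_of_nonneg_right h5 (by positivity)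
        _ = _ := by
            rw [hb]
            have : ((N : ℝ) + 2) ≠ 0 := by positivity
            field_simp
    have hsum : ∑' x, μ (E x) ≠ ⊤ := by
      have h4 : Summable fun N : ℕ => 2 * Real.exp 1 * (((N : ℝ) + 2) ^ 2)⁻¹ := by
        refine Summable.mul_left _ ?_
        have := (summable_nat_add_iff 2).2 (Real.summable_nat_pow_inv.2 (by norm_num : 1 < 2))
        simpa using this
      exact ne_top_of_le_ne_top h4.tsum_ofReal_ne_top (ENNReal.tsum_le_tsum hEμ)
    -- the size of the bound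
    set c : ℝ := 3 * C₁ * 2 ^ (2 * η + e) with hc
    have h2e : (1 : ℝ) ≤ 2 ^ (2 * η + e) := Real.one_le_rpow (by norm_num) (by linarith)
    have hc1 : 1 ≤ c := by
      rw [hc]
      nlinarith
    have hsize : ∀ᶠ N : ℕ in atTop, ∀ d : ℕ, 1 ≤ d → d ≤ N →
        R N d * (a N * Real.log ((N : ℝ) + 2)) ≤
        (N : ℝ) ^ (2 * e) * (√((N : ℝ) ^ (1 + 2 * η) / d) + (N : ℝ) ^ (2 * η)) := by
      have t1 : Tendsto (fun N : ℕ => (N : ℝ) + 2) atTop atTop :=
        tendsto_atTop_add_const_right _ _ tendsto_natCast_atTop_atTop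
      have h1 := t1.eventually ((isLittleO_log_rpow_atTop (show 0 < e / 4 by positivity)).bound
        (show (0 : ℝ) < 1 by norm_num))
      have h2 := (tendsto_natCast_atTop_atTop (R := ℝ)).eventually
        ((tendsto_rpow_atTop (show 0 < e / 2 by positivity)).eventually_ge_atTop
          (10 * c * 3 ^ (e / 2)))
      filter_upwards [h1, h2, eventually_ge_atTop 1] with N h1 h2 hN d hd1 hdN
      have hN1 : (1 : ℝ) ≤ N := by exact_mod_cast hN
      have hN0 : (0 : ℝ) < N := by linarith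
      have hd0 : (1 : ℝ) ≤ d := by exact_mod_cast hd1
      have hdp : (0 : ℝ) < d := by linarith
      have hdN' : (d : ℝ) ≤ N := by exact_mod_cast hdN
      have hlog : 0 ≤ Real.log ((N : ℝ) + 2) := Real.log_nonneg (by linarith)
      rw [Real.norm_of_nonneg hlog, one_mul, Real.norm_of_nonneg (by positivity)] at h1
      have h3 : ((N : ℝ) + 2) ^ (e / 2) ≤ 3 ^ (e / 2) * (N : ℝ) ^ (e / 2) := by
        rw [← Real.mul_rpow (by norm_num) hN0.le]
        exact Real.rpow_le_rpow (by positivity) (by linarith) (by positivity)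
      have h1' : Real.log ((N : ℝ) + 2) * Real.log ((N : ℝ) + 2) ≤ ((N : ℝ) + 2) ^ (e / 2) := by
        have h0 : (0 : ℝ) < (N : ℝ) + 2 := by linarith
        have e7 : ((N : ℝ) + 2) ^ (e / 2) = ((N : ℝ) + 2) ^ (e / 4) * ((N : ℝ) + 2) ^ (e / 4) := by
          rw [← Real.rpow_add h0]
          congr 1
          ring
        rw [e7]
        exact mul_le_mul h1 h1 hlog (by positivity)
      have hMN : 3 * M N ≤ c * (N : ℝ) ^ (2 * η + e) := by
        have h4 : ((N : ℝ) + 1) ^ (2 * η + e) ≤ 2 ^ (2 * η + e) * (N : ℝ) ^ (2 * η + e) := by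
          rw [← Real.mul_rpow (by norm_num) hN0.le]
          exact Real.rpow_le_rpow (by positivity) (by linarith) (by positivity)
        calc 3 * M N = 3 * C₁ * ((N : ℝ) + 1) ^ (2 * η + e) := by simp only [hM]; ring
          _ ≤ 3 * C₁ * (2 ^ (2 * η + e) * (N : ℝ) ^ (2 * η + e)) :=
              mul_le_mul_of_nonneg_left h4 (by positivity)
          _ = _ := by rw [hc]; ring
      have hNe : (N : ℝ) ^ (2 * η + e) = (N : ℝ) ^ e * (N : ℝ) ^ (2 * η) := by
        rw [← Real.rpow_add hN0]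
        congr 1
        ring
      have hNe1 : 1 ≤ (N : ℝ) ^ e := Real.one_le_rpow hN1 he.le
      have hcN : 1 ≤ c * (N : ℝ) ^ e := by nlinarith
      have hM0 : 0 ≤ M N := by linarith [hM1 N]
      have hR2 : R N d ≤ c * (N : ℝ) ^ e * (√((N : ℝ) ^ (1 + 2 * η) / d) + (N : ℝ) ^ (2 * η)) := by
        have h5 : √(M N * (((N : ℝ) + 1) / d + 1)) ≤
            c * (N : ℝ) ^ e * √((N : ℝ) ^ (1 + 2 * η) / d) := by
          have h6 : M N * (((N : ℝ) + 1) / d + 1) ≤ c * (N : ℝ) ^ e * ((N : ℝ) ^ (1 + 2 * η) / d) := by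
            have h7 : ((N : ℝ) + 1) / d + 1 ≤ 3 * (N / d) := by
              rw [div_add_one hdp.ne', mul_div_assoc', div_le_div_iff_of_pos_right hdp]
              linarith
            calc M N * (((N : ℝ) + 1) / d + 1) ≤ M N * (3 * (N / d)) :=
                  mul_le_mul_of_nonneg_left h7 hM0
              _ = 3 * M N * (N / d) := by ring
              _ ≤ c * (N : ℝ) ^ (2 * η + e) * (N / d) :=
                  mul_le_mul_of_nonneg_right hMN (by positivity)
              _ = _ := by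
                  rw [hNe, Real.rpow_add hN0 1, Real.rpow_one]
                  ring
          calc √(M N * (((N : ℝ) + 1) / d + 1)) ≤
                √(c * (N : ℝ) ^ e * ((N : ℝ) ^ (1 + 2 * η) / d)) := Real.sqrt_le_sqrt h6
            _ = √(c * (N : ℝ) ^ e) * √((N : ℝ) ^ (1 + 2 * η) / d) :=
                Real.sqrt_mul (by linarith) _
            _ ≤ _ := by
                refine mul_le_mul_of_nonneg_right ?_ (Real.sqrt_nonneg _)
                rw [Real.sqrt_le_left (by linarith)]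
                nlinarith
        have h8 : M N ≤ c * (N : ℝ) ^ e * (N : ℝ) ^ (2 * η) := by
          rw [mul_assoc, ← hNe]
          linarith
        have h9 := add_le_add h5 h8
        rw [← mul_add] at h9
        exact h9
      have hS0 : 0 ≤ √((N : ℝ) ^ (1 + 2 * η) / d) + (N : ℝ) ^ (2 * η) := by positivity
      have ha0 : 0 ≤ a N * Real.log ((N : ℝ) + 2) := by simp only [ha]; positivity
      have h9 : c * (N : ℝ) ^ e * (a N * Real.log ((N : ℝ) + 2)) ≤ (N : ℝ) ^ (2 * e) := by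
        have h10 : a N * Real.log ((N : ℝ) + 2) ≤ 5 * (3 ^ (e / 2) * (N : ℝ) ^ (e / 2)) := by
          simp only [ha]
          linarith
        have e5 : (N : ℝ) ^ (2 * e) = (N : ℝ) ^ e * ((N : ℝ) ^ (e / 2) * (N : ℝ) ^ (e / 2)) := by
          rw [← Real.rpow_add hN0, ← Real.rpow_add hN0]
          congr 1
          ring
        rw [e5]
        calc c * (N : ℝ) ^ e * (a N * Real.log ((N : ℝ) + 2)) ≤ c * (N : ℝ) ^ e * (5 * (3 ^ (e / 2) * (N : ℝ) ^ (e / 2))) :=
              mul_le_mul_of_nonneg_left h10 (by linarith)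
          _ = (N : ℝ) ^ e * ((5 * c * 3 ^ (e / 2)) * (N : ℝ) ^ (e / 2)) := by ring
          _ ≤ _ := by
              refine mul_le_mul_of_nonneg_left ?_ (by linarith)
              refine mul_le_mul_of_nonneg_right ?_ (by positivity)
              refine le_trans ?_ h2
              have : (0 : ℝ) ≤ c * 3 ^ (e / 2) := by positivity
              nlinarith
      calc R N d * (a N * Real.log ((N : ℝ) + 2)) ≤
            c * (N : ℝ) ^ e * (√((N : ℝ) ^ (1 + 2 * η) / d) + (N : ℝ) ^ (2 * η)) *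
              (a N * Real.log ((N : ℝ) + 2)) := mul_le_mul_of_nonneg_right hR2 ha0
        _ = c * (N : ℝ) ^ e * (a N * Real.log ((N : ℝ) + 2)) *
              (√((N : ℝ) ^ (1 + 2 * η) / d) + (N : ℝ) ^ (2 * η)) := by ring
        _ ≤ _ := mul_le_mul_of_nonneg_right h9 hS0
    filter_upwards [ae_eventually_notMem hsum] with ω hω
    filter_upwards [hω, hsize] with N hN hsz n hn d hd1 hdN l
    have hd0 : 0 < d := hd1
    have hl : l % d < d := Nat.mod_lt _ hd0
    rw [cla_mod]
    simp only [hE, Set.mem_iUnion, Set.mem_union, Set.mem_ofPred_eq, not_exists, not_or,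
      not_le] at hN
    obtain ⟨b1, b2⟩ := hN (⟨n, by omega⟩, ⟨d - 1, by omega⟩, ⟨l % d, by omega⟩)
    simp only [Nat.sub_add_cancel hd1, one_mul, neg_mul, mul_neg, sum_neg_distrib] at b1 b2
    have hsz' := hsz d hd1 hdN
    have hL0 : 0 < Real.log ((N : ℝ) + 2) :=
      Real.log_pos (by linarith [Nat.cast_nonneg (α := ℝ) N])
    have hlam : ∑ p ∈ cla n d (l % d), (wt A δ ω p - 1) * vonMangoldt p =
        (∑ p ∈ cla n d (l % d), (wt A δ ω p - 1) * uu N p) * Real.log ((N : ℝ) + 2) := by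
      rw [sum_mul]
      refine sum_congr rfl fun p hp => ?_
      rw [cla, mem_filter, mem_range] at hp
      unfold uu
      rw [if_pos (by omega)]
      field_simp
    rw [hlam, abs_mul, abs_of_pos hL0]
    have h20 : |∑ p ∈ cla n d (l % d), (wt A δ ω p - 1) * uu N p| ≤ R N d * a N := by
      rw [abs_le]
      exact ⟨by linarith, by linarith⟩
    refine (mul_le_mul_of_nonneg_right h20 hL0.le).trans ?_
    rw [mul_assoc]
    exact hsz'
  have key2 : ∀ᵐ ω ∂μ, ∀ q : ℕ, ∀ᶠ N : ℕ in atTop, ∀ n ≤ N + 1, ∀ d : ℕ, 1 ≤ d → d ≤ N →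
      ∀ l : ℕ, |∑ p ∈ cla n d l, (wt A δ ω p - 1) * vonMangoldt p| ≤
        (N : ℝ) ^ (2 * (1 / ((q : ℝ) + 1))) *
          (√((N : ℝ) ^ (1 + 2 * η) / d) + (N : ℝ) ^ (2 * η)) := by
    rw [ae_all_iff]; intro q
    exact key _ (by positivity)
  filter_upwards [key2] with ω hω ε hε
  obtain ⟨q, hq⟩ := exists_nat_one_div_lt (half_pos hε)
  filter_upwards [hω q, eventually_ge_atTop 1] with N hN hN1 n hn d hd1 hdN l
  refine (hN n hn d hd1 hdN l).trans ?_
  refine mul_le_mul_of_nonneg_right ?_ (by positivity)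
  exact Real.rpow_le_rpow_of_exponent_le (by exact_mod_cast hN1) (by linarith)

end Pool.Agent.H564.MG
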