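import Pool.Agent.H564.MG.Low2
import Pool.Agent.H564.MG.Noise
import Pool.Agent.H564.LH.Count
import Pool.Agent.H564.SC.Exist

/-! Montgomery's conjecture for random samples of the prime powers. -/

set_option autoImplicit false

namespace Pool.Agent.H564.MG

open Finset Filter Topology MeasureTheory ProbabilityTheory Classical
open Pool.Agent.H564.BSD (wt)
open Pool.Agent.H564.LH (Dens)
open ArithmeticFunction (vonMangoldt)

theorem psi_cla (w : ℕ → ℝ) (x : ℝ) (q a : ℕ) :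
    psi w x q a = ∑ i ∈ cla (⌊x⌋₊ + 1) q a, w i * vonMangoldt i := by
  unfold psi cla
  refine sum_subset_zero_on_sdiff ?_ ?_ fun _ _ => rfl
  · intro n hn
    rw [mem_filter, mem_Icc] at hn
    rw [mem_filter, mem_range]
    exact ⟨by omega, hn.2⟩
  · intro n hn
    rw [Finset.mem_sdiff, mem_filter, mem_range, mem_filter, mem_Icc] at hn
    have : n = 0 := by
      by_contra h0
      exact hn.2 ⟨⟨by omega, by omega⟩, hn.1.2⟩
    rw [this]
    simp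

theorem transfer {w v : ℕ → ℝ} {κ y : ℝ} (hy : 0 ≤ y) (h1 : κ ≤ 2 * y) (h2 : κ ≤ 1 / 4 + y)
    (h : ∀ ε : ℝ, 0 < ε → ∀ᶠ N : ℕ in atTop, ∀ n ≤ N + 1, ∀ d : ℕ, 1 ≤ d → d ≤ N → ∀ l : ℕ,
      |∑ p ∈ cla n d l, (w p - v p) * vonMangoldt p| ≤
        (N : ℝ) ^ ε * (√((N : ℝ) ^ (1 + κ) / d) + (N : ℝ) ^ κ)) (hκ : 0 ≤ κ)
    (hv : Mont v y) : Mont w y := by
  intro ε hε
  obtain ⟨C, x₀, hC⟩ := hv ε hε
  obtain ⟨N₁, hN₁⟩ := eventually_atTop.1 (h ε hε)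
  refine ⟨C + 2, max x₀ (max ((N₁ : ℝ) + 1) 1), fun x hx q a hq hqx hco => ?_⟩
  have hx0 : x₀ ≤ x := (le_max_left _ _).trans hx
  have hxN : (N₁ : ℝ) + 1 ≤ x := ((le_max_left _ _).trans (le_max_right _ _)).trans hx
  have hx1 : 1 ≤ x := ((le_max_right _ _).trans (le_max_right _ _)).trans hx
  have hxp : 0 < x := by linarith
  set N : ℕ := ⌊x⌋₊ with hN
  have hNx : (N : ℝ) ≤ x := Nat.floor_le hxp.le
  have hNx2 : x < N + 1 := Nat.lt_floor_add_one x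
  have hNN : N₁ ≤ N := by
    have : (N₁ : ℝ) < N + 1 := by linarith
    have : N₁ < N + 1 := by exact_mod_cast this
    omega
  have hq0 : (0 : ℝ) < q := by exact_mod_cast hq
  have hq1 : (1 : ℝ) ≤ q := by exact_mod_cast hq
  have hsx : √x ≤ x := by
    rw [Real.sqrt_le_left hxp.le]
    nlinarith
  have hqN : q ≤ N := Nat.le_floor (hqx.trans hsx)
  have h3 := hN₁ N hNN (N + 1) le_rfl q hq hqN a
  have h4 := hC x hx0 q a hq hqx hco
  have hN0 : (0 : ℝ) ≤ N := Nat.cast_nonneg N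
  have hsq : 0 < √(q : ℝ) := Real.sqrt_pos.2 hq0
  have e1 : psi w x q a - psi v x q a = ∑ p ∈ cla (N + 1) q a, (w p - v p) * vonMangoldt p := by
    rw [psi_cla, psi_cla, ← sum_sub_distrib]
    refine sum_congr rfl fun p _ => ?_
    ring
  rw [← e1] at h3
  -- the size of the noise
  have hE : x ^ ((1 : ℝ) / 2 + y + ε) = x ^ ε * x ^ ((1 : ℝ) / 2 + y) := by
    rw [← Real.rpow_add hxp]
    congr 1
    ring
  have h5 : √((N : ℝ) ^ (1 + κ) / q) ≤ x ^ ((1 : ℝ) / 2 + y) / √(q : ℝ) := by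
    rw [Real.sqrt_div (by positivity)]
    refine div_le_div_of_nonneg_right ?_ hsq.le
    have h6 : (N : ℝ) ^ (1 + κ) ≤ x ^ (1 + κ) := Real.rpow_le_rpow hN0 hNx (by linarith)
    calc √((N : ℝ) ^ (1 + κ)) ≤ √(x ^ (1 + κ)) := Real.sqrt_le_sqrt h6
      _ = x ^ ((1 + κ) / 2) := by
          rw [Real.sqrt_eq_rpow, ← Real.rpow_mul hxp.le]
          congr 1
          ring
      _ ≤ _ := Real.rpow_le_rpow_of_exponent_le hx1 (by linarith)
  have h7 : (N : ℝ) ^ κ ≤ x ^ ((1 : ℝ) / 2 + y) / √(q : ℝ) := by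
    rw [le_div_iff₀ hsq]
    have h8 : √(q : ℝ) ≤ x ^ ((1 : ℝ) / 4) := by
      calc √(q : ℝ) ≤ √(√x) := Real.sqrt_le_sqrt hqx
        _ = x ^ ((1 : ℝ) / 4) := by
            rw [Real.sqrt_eq_rpow, Real.sqrt_eq_rpow, ← Real.rpow_mul hxp.le]
            congr 1
            norm_num
    have h9 : (N : ℝ) ^ κ ≤ x ^ κ := Real.rpow_le_rpow hN0 hNx hκ
    calc (N : ℝ) ^ κ * √(q : ℝ) ≤ x ^ κ * x ^ ((1 : ℝ) / 4) :=
          mul_le_mul h9 h8 hsq.le (by positivity)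
      _ = x ^ (κ + 1 / 4) := by rw [← Real.rpow_add hxp]
      _ ≤ _ := Real.rpow_le_rpow_of_exponent_le hx1 (by linarith)
  have h10 : (N : ℝ) ^ ε ≤ x ^ ε := Real.rpow_le_rpow hN0 hNx hε.le
  have h11 : |psi w x q a - psi v x q a| ≤ 2 * x ^ ((1 : ℝ) / 2 + y + ε) / √(q : ℝ) := by
    refine h3.trans ?_
    calc (N : ℝ) ^ ε * (√((N : ℝ) ^ (1 + κ) / q) + (N : ℝ) ^ κ) ≤
          x ^ ε * (x ^ ((1 : ℝ) / 2 + y) / √(q : ℝ) + x ^ ((1 : ℝ) / 2 + y) / √(q : ℝ)) :=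
          mul_le_mul h10 (add_le_add h5 h7) (by positivity) (by positivity)
      _ = _ := by rw [hE]; ring
  have h12 := abs_add_le (psi w x q a - psi v x q a)
    (psi v x q a - x / (Nat.totient q : ℝ))
  rw [sub_add_sub_cancel] at h12
  have e3 : (C + 2) * x ^ ((1 : ℝ) / 2 + y + ε) / √(q : ℝ) =
      C * x ^ ((1 : ℝ) / 2 + y + ε) / √(q : ℝ) + 2 * x ^ ((1 : ℝ) / 2 + y + ε) / √(q : ℝ) := by
    ring
  rw [e3]
  linarith

/-- The properties of a sample with the exponent `κ`. -/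
def Sample (w : ℕ → ℝ) (κ : ℝ) : Prop :=
  (∀ ε : ℝ, 0 < ε → ∀ᶠ N : ℕ in atTop, (used w N : ℝ) ≤ (N : ℝ) ^ (1 - κ + ε)) ∧
  (∀ y : ℝ, 0 ≤ y → κ ≤ 2 * y → κ ≤ 1 / 4 + y → (Mont w y ↔ Mont (fun _ => 1) y)) ∧
  (∀ y : ℝ, 0 ≤ y → 2 * y < κ → ¬ Mont w y)

variable {Ω : Type*} [mΩ : MeasurableSpace Ω] {μ : Measure Ω} [IsProbabilityMeasure μ]
  {A : ℕ → Set Ω} {δ : ℕ → ℝ} {κ : ℝ}

theorem almost_surely (hA : ∀ p, MeasurableSet (A p)) (hind : iIndepSet A μ)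
    (hδ0 : ∀ p, 0 < δ p) (hμ : ∀ p, μ (A p) = ENNReal.ofReal (δ p))
    (hκ0 : 0 ≤ κ) (hκ1 : κ < 1)
    (hd : ∀ ε : ℝ, 0 < ε → ∀ᶠ n : ℕ in atTop,
      (n : ℝ) ^ (-κ - ε) ≤ δ n ∧ δ n ≤ (n : ℝ) ^ (-κ + ε)) :
    ∀ᵐ ω ∂μ, Sample (fun n => if ω ∈ A n then 1 / δ n else 0) κ := by
  have hδ1 : ∀ p, δ p ≤ 1 := by
    intro p
    have h1 : μ (A p) ≤ 1 := prob_le_one
    rw [hμ p, ENNReal.ofReal_le_one] at h1
    exact h1
  set η : ℝ := κ / 2 with hη
  have hκη : κ = 2 * η := by rw [hη]; ring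
  have hη0 : 0 ≤ η := by rw [hη]; linarith
  have hη1 : η < 1 / 2 := by rw [hη]; linarith
  have hd' : Dens δ η := by
    intro ε hε
    filter_upwards [hd ε hε] with p hp
    rw [← hκη]
    exact hp
  filter_upwards [Pool.Agent.H564.LH.count_up hA hind hδ0 hδ1 hμ hη0 hη1 hd',
    noise_lam hA hind hδ0 hδ1 hμ hη0 hd'] with ω h1 h2
  have e : (fun p => if ω ∈ A p then 1 / δ p else 0) = wt A δ ω := rfl
  rw [e]
  rw [← hκη] at h1 h2
  have hcount : ∀ ε : ℝ, 0 < ε → ∀ᶠ N : ℕ in atTop,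
      (used (wt A δ ω) N : ℝ) ≤ (N : ℝ) ^ (1 - κ + ε) := by
    intro ε hε
    filter_upwards [tendsto_natCast_atTop_atTop.eventually (h1 ε hε)] with N hN
    rw [Nat.floor_natCast] at hN
    refine le_trans ?_ hN
    have : ((Icc 1 N).filter fun n => wt A δ ω n * vonMangoldt n ≠ 0) ⊆
        (Finset.range (N + 1)).filter fun p => 0 < p ∧ ω ∈ A p := by
      intro p hp
      rw [mem_filter, mem_Icc] at hp
      rw [mem_filter, mem_range]
      refine ⟨by omega, by omega, ?_⟩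
      by_contra hcon
      apply hp.2
      unfold wt
      rw [if_neg hcon, zero_mul]
    unfold used
    exact_mod_cast card_le_card this
  refine ⟨hcount, fun y hy h3 h4 => ⟨?_, ?_⟩, fun y hy h3 hM => ?_⟩
  · refine transfer hy h3 h4 (fun ε hε => ?_) hκ0
    filter_upwards [h2 ε hε] with N hN n hn d hd1 hdN l
    have h5 := hN n hn d hd1 hdN l
    have e1 : ∑ p ∈ cla n d l, (1 - wt A δ ω p) * vonMangoldt p =
        -∑ p ∈ cla n d l, (wt A δ ω p - 1) * vonMangoldt p := by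
      rw [← sum_neg_distrib]
      refine sum_congr rfl fun p _ => ?_
      ring
    rw [e1, abs_neg]
    exact h5
  · exact transfer hy h3 h4 h2 hκ0
  · set ε : ℝ := (κ - 2 * y) / 4 with hε
    have hε0 : 0 < ε := by rw [hε]; linarith
    obtain ⟨N, b1, b2, hN⟩ := ((size_lower hy (by linarith) hM hε0).and
      ((hcount ε hε0).and (eventually_ge_atTop 2))).exists
    have hN2 : (1 : ℝ) < N := by exact_mod_cast hN
    have h7 := (Real.rpow_le_rpow_left_iff hN2).1 (b1.trans b2)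
    rw [hε] at h7
    linarith

theorem exists_sample {κ : ℝ} (hκ0 : 0 ≤ κ) (hκ1 : κ < 1) :
    ∃ w : ℕ → ℝ, (∀ n, 0 ≤ w n) ∧ Sample w κ := by
  have h0 : (0 : ℝ) ≤ κ / 2 := by linarith
  have h := almost_surely (μ := Pool.Agent.H564.SC.prodm) (κ := κ)
    (Pool.Agent.H564.SC.ev_meas (Pool.Agent.H564.SC.del (κ / 2)))
    (Pool.Agent.H564.SC.ev_indep (fun p => (Pool.Agent.H564.SC.del_pos (κ / 2) p).le)
      (Pool.Agent.H564.SC.del_le h0))
    (Pool.Agent.H564.SC.del_pos (κ / 2))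
    (Pool.Agent.H564.SC.ev_prob (fun p => (Pool.Agent.H564.SC.del_pos (κ / 2) p).le)
      (Pool.Agent.H564.SC.del_le h0)) hκ0 hκ1 (by
        intro ε hε
        filter_upwards [eventually_ge_atTop 1] with n hn
        have h1 : (1 : ℝ) ≤ n := by exact_mod_cast hn
        unfold Pool.Agent.H564.SC.del
        rw [max_eq_left h1]
        exact ⟨Real.rpow_le_rpow_of_exponent_le h1 (by linarith),
          Real.rpow_le_rpow_of_exponent_le h1 (by linarith)⟩)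
  obtain ⟨ω, hω⟩ := h.exists
  refine ⟨_, fun p => ?_, hω⟩
  split_ifs
  · exact (one_div_pos.2 (Pool.Agent.H564.SC.del_pos (κ / 2) p)).le
  · exact le_rfl

end Pool.Agent.H564.MG
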