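import Pool.Graph.R_seed8.H442R2.EHI.Ram

/-! A dissection of the circle: the square mean of a sequence by its sums over short progressions. -/

set_option autoImplicit false

namespace Pool.Agent.H564.MG

open Finset
open Pool.Agent.H469R2.NK (e norm_e e_add conj_e e_zero)
open Pool.Agent.H442R2.EHI (cq cq_coprime ex_eq_e)

theorem orth {P : ℕ} (hP : 1 ≤ P) (b : ℤ) :
    ∑ r ∈ range P, e ((r : ℝ) * b / P) = if (P : ℤ) ∣ b then (P : ℂ) else 0 := by
  rw [← H336V.RamanAux.geom P hP b]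
  refine sum_congr rfl fun r _ => ?_
  rw [ex_eq_e]

theorem parseval {P : ℕ} (hP : 1 ≤ P) (f : ℕ → ℂ) :
    ∑ r ∈ range P, ‖∑ t ∈ range P, f t * e ((r : ℝ) * t / P)‖ ^ 2 =
      P * ∑ t ∈ range P, ‖f t‖ ^ 2 := by
  have h1 : ∀ r ∈ range P, ((‖∑ t ∈ range P, f t * e ((r : ℝ) * t / P)‖ ^ 2 : ℝ) : ℂ) =
      ∑ t ∈ range P, ∑ s ∈ range P, f t * (starRingEnd ℂ) (f s) *
        e ((r : ℝ) * (((t : ℤ) - (s : ℤ) : ℤ) : ℝ) / P) := by
    intro r _
    rw [Complex.ofReal_pow, ← Complex.mul_conj', map_sum, sum_mul_sum]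
    refine sum_congr rfl fun t _ => sum_congr rfl fun s _ => ?_
    rw [map_mul, conj_e]
    have : e ((r : ℝ) * (((t : ℤ) - (s : ℤ) : ℤ) : ℝ) / P) =
        e ((r : ℝ) * t / P) * e (-((r : ℝ) * s / P)) := by
      rw [← e_add]
      congr 1
      push_cast
      ring
    rw [this]
    ring
  have h2 : ((∑ r ∈ range P, ‖∑ t ∈ range P, f t * e ((r : ℝ) * t / P)‖ ^ 2 : ℝ) : ℂ) =
      ((P * ∑ t ∈ range P, ‖f t‖ ^ 2 : ℝ) : ℂ) := by
    rw [Complex.ofReal_sum, sum_congr rfl h1, sum_comm]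
    push_cast
    rw [mul_sum]
    refine sum_congr rfl fun t ht => ?_
    rw [sum_comm]
    rw [sum_eq_single_of_mem t ht]
    · have ho := orth hP ((t : ℤ) - (t : ℤ))
      push_cast at ho
      rw [← mul_sum, ho, sub_self, if_pos (dvd_zero _)]
      rw [← Complex.mul_conj']
      ring
    · intro s hs hst
      have ho := orth hP ((t : ℤ) - (s : ℤ))
      push_cast at ho
      rw [← mul_sum, ho, if_neg, mul_zero]
      intro hdvd
      rw [mem_range] at ht hs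
      obtain ⟨k, hk⟩ := hdvd
      have h3 : |(t : ℤ) - s| < P := by rw [abs_lt]; omega
      rw [hk, abs_mul, Nat.abs_cast] at h3
      have h4 : k = 0 := by
        by_contra h0
        have : 1 ≤ |k| := Int.one_le_abs h0
        nlinarith
      rw [h4, mul_zero] at hk
      omega
  exact_mod_cast h2

/-- the exponential sum -/
noncomputable def TT (b : ℕ → ℝ) (P : ℕ) (α : ℝ) : ℂ := ∑ n ∈ range P, (b n : ℂ) * e (α * n)

/-- the sum over a window, twisted -/
noncomputable def GG (b : ℕ → ℝ) (H : ℕ) (β : ℝ) (t : ℕ) : ℂ :=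
  ∑ j ∈ Icc 1 H, (b (t + j) : ℂ) * e (β * j)

theorem local_eq {b : ℕ → ℝ} {N₀ P H : ℕ} (hb : ∀ n, n ≤ N₀ → b n = 0)
    (hb2 : ∀ n, P ≤ n → b n = 0) (hH : H ≤ N₀) (β α : ℝ) :
    ∑ t ∈ range P, GG b H β t * e (α * t) = TT b P α * ∑ j ∈ Icc 1 H, e ((β - α) * j) := by
  unfold GG
  have h1 : ∀ t ∈ range P, (∑ j ∈ Icc 1 H, (b (t + j) : ℂ) * e (β * j)) * e (α * t) =
      ∑ j ∈ Icc 1 H, e ((β - α) * j) * ((b (t + j) : ℂ) * e (α * ((t + j : ℕ) : ℝ))) := by
    intro t _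
    rw [sum_mul]
    refine sum_congr rfl fun j _ => ?_
    have : e (β * j) * e (α * t) = e ((β - α) * j) * e (α * ((t + j : ℕ) : ℝ)) := by
      rw [← e_add, ← e_add]
      congr 1
      push_cast
      ring
    linear_combination (b (t + j) : ℂ) * this
  rw [sum_congr rfl h1, sum_comm, mul_comm, sum_mul]
  refine sum_congr rfl fun j hj => ?_
  rw [← mul_sum]
  congr 1
  rw [mem_Icc] at hj
  set F : ℕ → ℂ := fun n => (b n : ℂ) * e (α * n) with hF
  have h2 : ∑ t ∈ range P, (b (t + j) : ℂ) * e (α * ((t + j : ℕ) : ℝ)) =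
      ∑ t ∈ range P, F (j + t) := by
    refine sum_congr rfl fun t _ => ?_
    rw [hF, add_comm j t]
  rw [h2]
  have h3 := sum_range_add F j P
  have h4 := sum_range_add F P j
  have h5 : ∑ x ∈ range j, F x = 0 := by
    refine sum_eq_zero fun x hx => ?_
    rw [mem_range] at hx
    simp only [hF]
    rw [hb x (by omega)]
    simp
  have h6 : ∑ x ∈ range j, F (P + x) = 0 := by
    refine sum_eq_zero fun x hx => ?_
    simp only [hF]
    rw [hb2 (P + x) (by omega)]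
    simp
  rw [h5, zero_add] at h3
  rw [h6, add_zero] at h4
  rw [← h3, add_comm j P, h4]
  rfl

theorem kernel_lower {θ : ℝ} {H : ℕ} (h : |θ| * H ≤ 1 / 8) :
    (H : ℝ) / 2 ≤ ‖∑ j ∈ Icc 1 H, e (θ * j)‖ := by
  refine le_trans ?_ (Complex.re_le_norm _)
  rw [Complex.re_sum]
  have h1 : ∀ j ∈ Icc 1 H, (1 : ℝ) / 2 ≤ (e (θ * j)).re := by
    intro j hj
    rw [mem_Icc] at hj
    have h2 : (e (θ * j)).re = Real.cos (2 * Real.pi * (θ * j)) := by
      unfold e
      rw [Complex.exp_ofReal_mul_I_re]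
    rw [h2]
    have h3 := Real.one_sub_sq_div_two_le_cos (x := 2 * Real.pi * (θ * j))
    have hj1 : (j : ℝ) ≤ H := by exact_mod_cast hj.2
    have h4 : |θ * j| ≤ 1 / 8 := by
      rw [abs_mul, Nat.abs_cast]
      exact (mul_le_mul_of_nonneg_left hj1 (abs_nonneg _)).trans h
    have h5 : (θ * j) ^ 2 ≤ (1 / 8) ^ 2 := by
      rw [← sq_abs]
      exact pow_le_pow_left₀ (abs_nonneg _) h4 2
    have h6 : Real.pi ^ 2 ≤ 3.15 ^ 2 := by
      have := Real.pi_lt_d2
      exact pow_le_pow_left₀ Real.pi_pos.le this.le 2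
    have h7 : (2 * Real.pi * (θ * j)) ^ 2 = 4 * Real.pi ^ 2 * (θ * j) ^ 2 := by ring
    have h8 : 4 * Real.pi ^ 2 * (θ * j) ^ 2 ≤ 4 * 3.15 ^ 2 * (1 / 8) ^ 2 := by
      have : 0 ≤ (θ * j) ^ 2 := sq_nonneg _
      have h9 : 0 ≤ Real.pi ^ 2 := sq_nonneg _
      nlinarith
    rw [h7] at h3
    norm_num at h8
    linarith
  have h2 := card_nsmul_le_sum _ _ _ h1
  rw [Nat.card_Icc, Nat.add_sub_cancel, nsmul_eq_mul] at h2
  linarith

theorem e_int (k : ℤ) : e (k : ℝ) = 1 := by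
  unfold e
  rw [Complex.exp_eq_one_iff]
  exact ⟨k, by push_cast; ring⟩

/-- **The dissection of the circle.** -/
theorem l2_bound {b : ℕ → ℝ} {N₀ P M Q : ℕ} (hb : ∀ n, n ≤ N₀ → b n = 0)
    (hb2 : ∀ n, P ≤ n → b n = 0) (hP : 1 ≤ P) (hM : 1 ≤ M) (hMQ : 8 * M ≤ Q + 1)
    (hH : Q * M ≤ N₀) :
    ∑ t ∈ range P, b t ^ 2 ≤ ∑ q ∈ Icc 1 Q, ∑ a ∈ (range q).filter (fun a => a.Coprime q),
      4 / ((q : ℝ) * M) ^ 2 * ∑ t ∈ range P, ‖GG b (q * M) ((a : ℝ) / q) t‖ ^ 2 := by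
  have hQ : 0 < Q := by omega
  have hPr : (0 : ℝ) < P := by exact_mod_cast hP
  have hMr : (0 : ℝ) < M := by exact_mod_cast hM
  -- the term of `q`, `a` at `r`
  set V : ℕ → ℕ → ℕ → ℝ := fun r q a => 4 / ((q : ℝ) * M) ^ 2 *
    ‖∑ t ∈ range P, GG b (q * M) ((a : ℝ) / q) t * e ((r : ℝ) * t / P)‖ ^ 2 with hV
  have hV0 : ∀ r q a, 0 ≤ V r q a := fun r q a => by simp only [hV]; positivity
  have key : ∀ r : ℕ, ‖TT b P ((r : ℝ) / P)‖ ^ 2 ≤
      ∑ q ∈ Icc 1 Q, ∑ a ∈ (range q).filter (fun a => a.Coprime q), V r q a := by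
    intro r
    obtain ⟨ρ, hρ1, hρ2⟩ := Real.exists_rat_abs_sub_le_and_den_le ((r : ℝ) / P) hQ
    set q : ℕ := ρ.den with hq
    have hq0 : 0 < q := ρ.den_pos
    have hqr : (0 : ℝ) < q := by exact_mod_cast hq0
    set a : ℕ := (ρ.num % (q : ℤ)).toNat with ha
    have hmod0 : 0 ≤ ρ.num % (q : ℤ) := Int.emod_nonneg _ (by omega)
    have hmod1 : ρ.num % (q : ℤ) < q := Int.emod_lt_of_pos _ (by omega)
    have haz : (a : ℤ) = ρ.num % (q : ℤ) := Int.toNat_of_nonneg hmod0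
    have haq : a < q := by omega
    obtain ⟨k, hk⟩ : ∃ k : ℤ, ρ.num = a + k * q := ⟨ρ.num / q, by
      rw [haz]
      have := Int.emod_add_mul_ediv ρ.num (q : ℤ)
      linarith⟩
    have hco : a.Coprime q := by
      have h1 : Nat.Coprime ρ.num.natAbs q := ρ.reduced
      have h2 : Int.gcd ρ.num (q : ℤ) = 1 := by
        rw [Int.gcd_eq_natAbs, Int.natAbs_natCast]
        exact h1
      have h3 : Int.gcd (a : ℤ) (q : ℤ) = 1 := by
        rw [hk] at h2
        rwa [Int.gcd_add_mul_right_left] at h2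
      rwa [Int.gcd_natCast_natCast] at h3
    have hmem : a ∈ (range q).filter (fun a => a.Coprime q) := by
      rw [mem_filter, mem_range]
      exact ⟨haq, hco⟩
    have hqI : q ∈ Icc 1 Q := by
      rw [mem_Icc]
      exact ⟨hq0, hρ2⟩
    have hle : V r q a ≤ ∑ q ∈ Icc 1 Q, ∑ a ∈ (range q).filter (fun a => a.Coprime q), V r q a := by
      refine le_trans ?_ (single_le_sum (f := fun q => ∑ a ∈ (range q).filter
        (fun a => a.Coprime q), V r q a) (fun q _ => sum_nonneg fun a _ => hV0 r q a) hqI)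
      exact single_le_sum (f := fun a => V r q a) (fun a _ => hV0 r q a) hmem
    refine le_trans ?_ hle
    -- the local identity
    have hρr : (ρ : ℝ) = (a : ℝ) / q + k := by
      have h1 : (ρ : ℝ) = (ρ.num : ℝ) / (ρ.den : ℝ) := by
        exact_mod_cast (Rat.num_div_den ρ).symm
      rw [h1, ← hq]
      have h2 : (ρ.num : ℝ) = a + k * q := by exact_mod_cast congrArg (fun z : ℤ => (z : ℝ)) hk
      rw [h2]
      field_simp
    have hHN : q * M ≤ N₀ := (Nat.mul_le_mul_right M hρ2).trans hH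
    have hloc := local_eq hb hb2 hHN ((a : ℝ) / q) ((r : ℝ) / P)
    have hθ : |(a : ℝ) / q + k - (r : ℝ) / P| * ((q * M : ℕ) : ℝ) ≤ 1 / 8 := by
      rw [← hρr, abs_sub_comm]
      push_cast
      have h1 := mul_le_mul_of_nonneg_right hρ1 (show (0 : ℝ) ≤ (q : ℝ) * M by positivity)
      refine h1.trans ?_
      rw [div_mul_eq_mul_div, one_mul, div_le_div_iff₀ (by positivity) (by norm_num)]
      have h2 : (8 : ℝ) * M ≤ Q + 1 := by exact_mod_cast hMQ
      nlinarith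
    have hker := kernel_lower hθ
    have hsame : ∑ j ∈ Icc 1 (q * M), e (((a : ℝ) / q + k - (r : ℝ) / P) * j) =
        ∑ j ∈ Icc 1 (q * M), e (((a : ℝ) / q - (r : ℝ) / P) * j) := by
      refine sum_congr rfl fun j _ => ?_
      have h1 : ((a : ℝ) / q + k - (r : ℝ) / P) * j =
          ((a : ℝ) / q - (r : ℝ) / P) * j + ((k * j : ℤ) : ℝ) := by
        push_cast
        ring
      rw [h1, e_add, e_int, mul_one]
    rw [hsame] at hker
    simp only [hV]
    have h3 : ∑ t ∈ range P, GG b (q * M) ((a : ℝ) / q) t * e ((r : ℝ) * t / P) =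
        ∑ t ∈ range P, GG b (q * M) ((a : ℝ) / q) t * e ((r : ℝ) / P * t) := by
      refine sum_congr rfl fun t _ => ?_
      congr 2
      ring
    rw [h3, hloc, norm_mul, mul_pow]
    push_cast at hker
    have h4 : (((q : ℝ) * M) / 2) ^ 2 ≤
        ‖∑ j ∈ Icc 1 (q * M), e (((a : ℝ) / q - (r : ℝ) / P) * j)‖ ^ 2 :=
      pow_le_pow_left₀ (by positivity) hker 2
    have h5 : 0 ≤ ‖TT b P ((r : ℝ) / P)‖ ^ 2 := by positivity
    have h6 : (0 : ℝ) < (q : ℝ) * M := by positivity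
    rw [div_mul_eq_mul_div, le_div_iff₀ (by positivity)]
    nlinarith
  -- the sum over `r`
  have hsum : ∑ r ∈ range P, ‖TT b P ((r : ℝ) / P)‖ ^ 2 = P * ∑ t ∈ range P, b t ^ 2 := by
    have h1 := parseval hP (fun t => (b t : ℂ))
    have h2 : ∀ t, ‖((b t : ℝ) : ℂ)‖ ^ 2 = b t ^ 2 := by
      intro t
      rw [Complex.norm_real, Real.norm_eq_abs, sq_abs]
    simp only [h2] at h1
    rw [← h1]
    refine sum_congr rfl fun r _ => ?_
    congr 2
    unfold TT
    refine sum_congr rfl fun t _ => ?_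
    congr 2
    ring
  have h1 : P * ∑ t ∈ range P, b t ^ 2 ≤ ∑ r ∈ range P, ∑ q ∈ Icc 1 Q,
      ∑ a ∈ (range q).filter (fun a => a.Coprime q), V r q a := by
    rw [← hsum]
    exact sum_le_sum fun r _ => key r
  have h2 : ∑ r ∈ range P, ∑ q ∈ Icc 1 Q,
      ∑ a ∈ (range q).filter (fun a => a.Coprime q), V r q a =
      P * ∑ q ∈ Icc 1 Q, ∑ a ∈ (range q).filter (fun a => a.Coprime q),
      4 / ((q : ℝ) * M) ^ 2 * ∑ t ∈ range P, ‖GG b (q * M) ((a : ℝ) / q) t‖ ^ 2 := by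
    rw [sum_comm, mul_sum]
    refine sum_congr rfl fun q _ => ?_
    rw [sum_comm, mul_sum]
    refine sum_congr rfl fun a _ => ?_
    simp only [hV]
    rw [← mul_sum, parseval hP]
    ring
  rw [h2] at h1
  exact le_of_mul_le_mul_left h1 hPr

/-- the sum over one class in a window -/
noncomputable def SS (b : ℕ → ℝ) (H q t u : ℕ) : ℝ :=
  ∑ j ∈ (Icc 1 H).filter (fun j => (t + j) % q = u), b (t + j)

theorem GG_eq {b : ℕ → ℝ} {H q t a : ℕ} (hq : 1 ≤ q) :
    e ((a : ℝ) * t / q) * GG b H ((a : ℝ) / q) t =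
      ∑ u ∈ range q, (SS b H q t u : ℂ) * e ((a : ℝ) * u / q) := by
  unfold GG SS
  have hqr : (q : ℝ) ≠ 0 := by
    have : (0 : ℝ) < q := by exact_mod_cast hq
    exact this.ne'
  rw [mul_sum]
  have h1 : ∀ j ∈ Icc 1 H, e ((a : ℝ) * t / q) * ((b (t + j) : ℂ) * e ((a : ℝ) / q * j)) =
      (b (t + j) : ℂ) * e ((a : ℝ) * ((t + j) % q : ℕ) / q) := by
    intro j _
    have h2 : e ((a : ℝ) * t / q) * e ((a : ℝ) / q * j) =
        e ((a : ℝ) * ((t + j) % q : ℕ) / q) := by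
      rw [← e_add]
      obtain ⟨k, hk⟩ : ∃ k : ℕ, (t + j) % q + q * k = t + j := ⟨_, Nat.mod_add_div (t + j) q⟩
      have h3 : (a : ℝ) * t / q + (a : ℝ) / q * j =
          (a : ℝ) * ((t + j) % q : ℕ) / q + ((a * k : ℤ) : ℝ) := by
        have h4 : (((t + j) % q : ℕ) : ℝ) + (q : ℝ) * (k : ℝ) = (t : ℝ) + j := by
          exact_mod_cast congrArg (fun z : ℕ => (z : ℝ)) hk
        have h5 : (((t + j) % q : ℕ) : ℝ) = (t : ℝ) + j - (q : ℝ) * (k : ℝ) := by
          linarith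
        rw [h5]
        push_cast
        field_simp
        ring
      rw [h3, e_add, e_int, mul_one]
    linear_combination (b (t + j) : ℂ) * h2
  rw [sum_congr rfl h1]
  have hmaps : ∀ j ∈ Icc 1 H, (t + j) % q ∈ range q := fun j _ => by
    rw [mem_range]
    exact Nat.mod_lt _ hq
  rw [← sum_fiberwise_of_maps_to hmaps]
  refine sum_congr rfl fun u _ => ?_
  push_cast
  rw [sum_mul]
  refine sum_congr rfl fun j hj => ?_
  rw [mem_filter] at hj
  rw [hj.2]

/-- **The sum over the primitive fractions.** -/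
theorem class_bound {b : ℕ → ℝ} {H q t : ℕ} (hq : 1 ≤ q) (m : ℝ) :
    ∑ a ∈ (range q).filter (fun a => a.Coprime q), ‖GG b H ((a : ℝ) / q) t‖ ^ 2 ≤
      2 * m ^ 2 / (Nat.totient q : ℝ) + 2 * q * ∑ u ∈ range q,
        (SS b H q t u - if u.Coprime q then m / (Nat.totient q : ℝ) else 0) ^ 2 := by
  have hφ : 0 < Nat.totient q := Nat.totient_pos.2 hq
  have hφr : (0 : ℝ) < Nat.totient q := by exact_mod_cast hφ
  set E : ℕ → ℝ := fun u => SS b H q t u - if u.Coprime q then m / (Nat.totient q : ℝ) else 0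
    with hE
  set W : ℕ → ℂ := fun a => ∑ u ∈ range q, (E u : ℂ) * e ((a : ℝ) * u / q) with hW
  have h1 : ∀ a ∈ (range q).filter (fun a => a.Coprime q), ‖GG b H ((a : ℝ) / q) t‖ ^ 2 ≤
      2 * (m / (Nat.totient q : ℝ)) ^ 2 + 2 * ‖W a‖ ^ 2 := by
    intro a ha
    rw [mem_filter, mem_range] at ha
    have h2 : ‖GG b H ((a : ℝ) / q) t‖ = ‖∑ u ∈ range q, (SS b H q t u : ℂ) *
        e ((a : ℝ) * u / q)‖ := by
      rw [← GG_eq hq, norm_mul, norm_e, one_mul]
    have h3 : ∑ u ∈ range q, (SS b H q t u : ℂ) * e ((a : ℝ) * u / q) =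
        ((m / (Nat.totient q : ℝ) : ℝ) : ℂ) * cq q a + W a := by
      have h4 : ∀ u ∈ range q, (SS b H q t u : ℂ) * e ((a : ℝ) * u / q) =
          (if u.Coprime q then ((m / (Nat.totient q : ℝ) : ℝ) : ℂ) * e ((u : ℝ) * a / q) else 0) +
          (E u : ℂ) * e ((a : ℝ) * u / q) := by
        intro u _
        simp only [hE]
        rw [mul_comm (u : ℝ) (a : ℝ)]
        split_ifs <;> push_cast <;> ring
      rw [sum_congr rfl h4, sum_add_distrib, ← sum_filter, ← mul_sum]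
      rfl
    have h5 : ‖cq q a‖ ≤ 1 := by
      rw [cq_coprime q a hq ha.2]
      rw [Complex.norm_intCast]
      exact_mod_cast ArithmeticFunction.abs_moebius_le_one
    rw [h2, h3]
    have h6 : ‖((m / (Nat.totient q : ℝ) : ℝ) : ℂ) * cq q a + W a‖ ≤
        |m / (Nat.totient q : ℝ)| + ‖W a‖ := by
      refine (norm_add_le _ _).trans ?_
      rw [norm_mul, Complex.norm_real, Real.norm_eq_abs]
      have := mul_le_mul_of_nonneg_left h5 (abs_nonneg (m / (Nat.totient q : ℝ)))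
      linarith
    have h7 := pow_le_pow_left₀ (norm_nonneg _) h6 2
    refine h7.trans ?_
    have h8 : |m / (Nat.totient q : ℝ)| ^ 2 = (m / (Nat.totient q : ℝ)) ^ 2 := sq_abs _
    nlinarith [sq_nonneg (|m / (Nat.totient q : ℝ)| - ‖W a‖)]
  refine (sum_le_sum h1).trans ?_
  rw [sum_add_distrib, sum_const, nsmul_eq_mul]
  have hcard : (((range q).filter (fun a => a.Coprime q)).card : ℝ) = Nat.totient q := by
    rw [Nat.totient_eq_card_coprime]
    congr 2
    ext a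
    rw [mem_filter, mem_filter, Nat.coprime_comm]
  rw [hcard]
  have h9 : ∑ a ∈ (range q).filter (fun a => a.Coprime q), 2 * ‖W a‖ ^ 2 ≤
      2 * q * ∑ u ∈ range q, E u ^ 2 := by
    rw [← mul_sum, mul_assoc]
    refine mul_le_mul_of_nonneg_left ?_ (by norm_num)
    refine (sum_le_sum_of_subset_of_nonneg (filter_subset _ _) fun a _ _ => by positivity).trans ?_
    have h10 := parseval hq (fun u => (E u : ℂ))
    have h11 : ∀ u, ‖((E u : ℝ) : ℂ)‖ ^ 2 = E u ^ 2 := by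
      intro u
      rw [Complex.norm_real, Real.norm_eq_abs, sq_abs]
    simp only [h11] at h10
    rw [← h10]
  have h12 : (Nat.totient q : ℝ) * (2 * (m / (Nat.totient q : ℝ)) ^ 2) =
      2 * m ^ 2 / (Nat.totient q : ℝ) := by
    field_simp
  rw [h12]
  exact add_le_add le_rfl h9

end Pool.Agent.H564.MG
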