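import Pool.Agent.H564.MG.Four
import Pool.Graph.R_seed8.H398R2.BV1

/-! Montgomery's bound for weighted prime powers: the number of the prime powers which are needed. -/

set_option autoImplicit false

namespace Pool.Agent.H564.MG

open Finset Filter Topology
open ArithmeticFunction (vonMangoldt)

/-- `∑ w(n) Λ(n)` over `n ≤ x`, `n ≡ a mod q` -/
noncomputable def psi (w : ℕ → ℝ) (x : ℝ) (q a : ℕ) : ℝ :=
  ∑ n ∈ (Icc 1 ⌊x⌋₊).filter (fun n => n % q = a % q), w n * vonMangoldt n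

/-- the bound `x^(1/2+y+ε) q^(-1/2)` for the weights `w` and all `q ≤ √x` -/
def Mont (w : ℕ → ℝ) (y : ℝ) : Prop :=
  ∀ ε : ℝ, 0 < ε → ∃ C : ℝ, ∃ x₀ : ℝ, ∀ x : ℝ, x₀ ≤ x →
    ∀ q a : ℕ, 1 ≤ q → (q : ℝ) ≤ Real.sqrt x → Nat.Coprime a q →
      |psi w x q a - x / (Nat.totient q : ℝ)| ≤
        C * x ^ ((1 : ℝ) / 2 + y + ε) / Real.sqrt (q : ℝ)

theorem psi_sub (w : ℕ → ℝ) {z₁ z₂ q u : ℕ} (hz : z₁ ≤ z₂) (hu : u < q) :
    psi w z₂ q u - psi w z₁ q u =
      ∑ n ∈ (Ioc z₁ z₂).filter (fun n => n % q = u), w n * vonMangoldt n := by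
  unfold psi
  rw [Nat.floor_natCast, Nat.floor_natCast, Nat.mod_eq_of_lt hu, sub_eq_iff_eq_add, add_comm]
  have h1 : (Icc 1 z₂).filter (fun n => n % q = u) =
      (Icc 1 z₁).filter (fun n => n % q = u) ∪ (Ioc z₁ z₂).filter (fun n => n % q = u) := by
    ext n
    rw [mem_union, mem_filter, mem_filter, mem_filter, mem_Icc, mem_Icc, mem_Ioc]
    constructor
    · rintro ⟨a, b⟩
      rcases le_or_gt n z₁ with c | c
      · exact Or.inl ⟨⟨a.1, c⟩, b⟩
      · exact Or.inr ⟨⟨c, a.2⟩, b⟩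
    · rintro (⟨a, b⟩ | ⟨a, b⟩)
      · exact ⟨⟨a.1, a.2.trans hz⟩, b⟩
      · exact ⟨⟨by omega, a.2⟩, b⟩
  rw [h1, sum_union]
  rw [disjoint_left]
  intro n hn hn'
  rw [mem_filter, mem_Icc] at hn
  rw [mem_filter, mem_Ioc] at hn'
  omega

/-- the sequence restricted to `(N₀, N]` -/
noncomputable def bb (w : ℕ → ℝ) (N₀ N n : ℕ) : ℝ :=
  if N₀ < n ∧ n ≤ N then w n * vonMangoldt n else 0

theorem SS_eq (w : ℕ → ℝ) {N₀ N H q t u : ℕ} (hN : N₀ ≤ N) :
    SS (bb w N₀ N) H q t u = ∑ n ∈ (Ioc (max N₀ (min N t)) (max N₀ (min N (t + H)))).filter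
      (fun n => n % q = u), w n * vonMangoldt n := by
  unfold SS
  have h1 : ∑ j ∈ (Icc 1 H).filter (fun j => (t + j) % q = u), bb w N₀ N (t + j) =
      ∑ n ∈ (Ioc t (t + H)).filter (fun n => n % q = u), bb w N₀ N n := by
    refine sum_nbij (fun j => t + j) ?_ ?_ ?_ ?_
    · intro j hj
      rw [mem_filter, mem_Icc] at hj
      rw [mem_filter, mem_Ioc]
      exact ⟨⟨by omega, by omega⟩, hj.2⟩
    · intro i _ j _ hij
      simp only at hij
      omega
    · intro n hn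
      rw [mem_coe, mem_filter, mem_Ioc] at hn
      refine ⟨n - t, ?_, by simp only; omega⟩
      rw [mem_coe, mem_filter, mem_Icc]
      refine ⟨⟨by omega, by omega⟩, ?_⟩
      rw [Nat.add_sub_cancel' (by omega)]
      exact hn.2
    · intro j _
      rfl
  rw [h1]
  unfold bb
  rw [← sum_filter, filter_filter]
  refine sum_congr ?_ fun _ _ => rfl
  ext n
  rw [mem_filter, mem_filter, mem_Ioc, mem_Ioc]
  constructor
  · rintro ⟨a, b, c⟩
    exact ⟨by omega, b⟩
  · rintro ⟨a, b⟩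
    exact ⟨by omega, b, by omega⟩

theorem prime_pow_count (w : ℕ → ℝ) {N₀ N q : ℕ} (hN : N ≤ 2 * N₀ + 1) (hq : 1 ≤ q) :
    ((Ioc N₀ N).filter (fun n => ¬ n.Coprime q ∧ w n * vonMangoldt n ≠ 0)).card ≤
      q.primeFactors.card := by
  refine card_le_card_of_injOn Nat.minFac ?_ ?_
  · intro n hn
    rw [mem_coe, mem_filter, mem_Ioc] at hn
    obtain ⟨⟨h1, h2⟩, h3, h4⟩ := hn
    have h5 : IsPrimePow n := by
      rw [← ArithmeticFunction.vonMangoldt_ne_zero_iff]
      exact right_ne_zero_of_mul h4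
    obtain ⟨p, k, hp, hk, hpk⟩ := (isPrimePow_nat_iff n).1 h5
    have h6 : n.minFac = p := by
      rw [← hpk]
      exact hp.pow_minFac (by omega)
    rw [mem_coe, Nat.mem_primeFactors, h6]
    refine ⟨hp, ?_, by omega⟩
    by_contra h7
    apply h3
    rw [← hpk]
    exact Nat.Coprime.pow_left k ((Nat.Prime.coprime_iff_not_dvd hp).2 h7)
  · intro n hn n' hn' heq
    rw [mem_coe, mem_filter, mem_Ioc] at hn hn'
    have main : ∀ p k k' : ℕ, p.Prime → k < k' → N₀ < p ^ k → p ^ k' ≤ N → False := by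
      intro p k k' hp hkk h1 h2
      have h3 : p ^ (k + 1) ≤ p ^ k' := Nat.pow_le_pow_right hp.pos hkk
      have h4 : 2 * p ^ k ≤ p ^ (k + 1) := by
        rw [pow_succ, mul_comm]
        exact Nat.mul_le_mul_left _ hp.two_le
      omega
    have h5 : IsPrimePow n := by
      rw [← ArithmeticFunction.vonMangoldt_ne_zero_iff]
      exact right_ne_zero_of_mul hn.2.2
    have h5' : IsPrimePow n' := by
      rw [← ArithmeticFunction.vonMangoldt_ne_zero_iff]
      exact right_ne_zero_of_mul hn'.2.2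
    obtain ⟨p, k, hp, hk, hpk⟩ := (isPrimePow_nat_iff n).1 h5
    obtain ⟨p', k', hp', hk', hpk'⟩ := (isPrimePow_nat_iff n').1 h5'
    have h6 : n.minFac = p := by
      rw [← hpk]
      exact hp.pow_minFac (by omega)
    have h6' : n'.minFac = p' := by
      rw [← hpk']
      exact hp'.pow_minFac (by omega)
    rw [h6, h6'] at heq
    subst heq
    rw [← hpk] at hn ⊢
    rw [← hpk'] at hn' ⊢
    rcases lt_trichotomy k k' with h | h | h
    · exact (main p k k' hp h hn.1.1 hn'.1.2).elim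
    · rw [h]
    · exact (main p k' k hp h hn'.1.1 hn.1.2).elim

theorem window {w : ℕ → ℝ} {N₀ N q H t : ℕ} {B : ℝ} (hB : 1 ≤ B) (hN0 : N₀ ≤ N)
    (hN : N ≤ 2 * N₀ + 1) (hq : 1 ≤ q)
    (h : ∀ z : ℕ, N₀ ≤ z → z ≤ N → ∀ u : ℕ, u.Coprime q →
      |psi w z q u - z / (Nat.totient q : ℝ)| ≤ B / √(q : ℝ))
    (h1 : ∀ z : ℕ, N₀ ≤ z → z ≤ N → |psi w z 1 0 - z| ≤ B) :
    ∃ m : ℝ, 0 ≤ m ∧ m ≤ H ∧ ∑ u ∈ range q,
      (SS (bb w N₀ N) H q t u - if u.Coprime q then m / (Nat.totient q : ℝ) else 0) ^ 2 ≤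
        (4 + 9 * (q.primeFactors.card : ℝ) ^ 2) * B ^ 2 := by
  set z₁ : ℕ := max N₀ (min N t) with hz1
  set z₂ : ℕ := max N₀ (min N (t + H)) with hz2
  have hz : z₁ ≤ z₂ := by omega
  have hzH : z₂ ≤ z₁ + H := by omega
  have hq0 : (0 : ℝ) < q := by exact_mod_cast hq
  have hsq : 0 < √(q : ℝ) := Real.sqrt_pos.2 hq0
  have hsq2 : √(q : ℝ) ^ 2 = q := Real.sq_sqrt hq0.le
  refine ⟨(z₂ : ℝ) - z₁, ?_, ?_, ?_⟩
  · have : (z₁ : ℝ) ≤ z₂ := by exact_mod_cast hz
    linarith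
  · have : (z₂ : ℝ) ≤ z₁ + H := by exact_mod_cast hzH
    linarith
  rw [← sum_filter_add_sum_filter_not (range q) (fun u => u.Coprime q)]
  have hco : ∑ u ∈ (range q).filter (fun u => u.Coprime q),
      (SS (bb w N₀ N) H q t u - if u.Coprime q then ((z₂ : ℝ) - z₁) / (Nat.totient q : ℝ)
        else 0) ^ 2 ≤ 4 * B ^ 2 := by
    have h2 : ∀ u ∈ (range q).filter (fun u => u.Coprime q),
        (SS (bb w N₀ N) H q t u - if u.Coprime q then ((z₂ : ℝ) - z₁) / (Nat.totient q : ℝ)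
          else 0) ^ 2 ≤ 4 * B ^ 2 / q := by
      intro u hu
      rw [mem_filter, mem_range] at hu
      rw [if_pos hu.2, SS_eq w hN0, ← psi_sub w hz hu.1]
      have a1 := h z₂ (by omega) (by omega) u hu.2
      have a2 := h z₁ (by omega) (by omega) u hu.2
      have a3 : |psi w z₂ q u - psi w z₁ q u - ((z₂ : ℝ) - z₁) / (Nat.totient q : ℝ)| ≤
          2 * B / √(q : ℝ) := by
        have e1 : psi w z₂ q u - psi w z₁ q u - ((z₂ : ℝ) - z₁) / (Nat.totient q : ℝ) =
            (psi w z₂ q u - z₂ / (Nat.totient q : ℝ)) -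
              (psi w z₁ q u - z₁ / (Nat.totient q : ℝ)) := by ring
        rw [e1]
        refine (abs_sub _ _).trans ?_
        have e2 : 2 * B / √(q : ℝ) = B / √(q : ℝ) + B / √(q : ℝ) := by ring
        rw [e2]
        exact add_le_add a1 a2
      rw [← sq_abs]
      refine (pow_le_pow_left₀ (abs_nonneg _) a3 2).trans (le_of_eq ?_)
      rw [div_pow, hsq2]
      ring
    refine (sum_le_card_nsmul _ _ _ h2).trans ?_
    rw [nsmul_eq_mul]
    have h3 : (((range q).filter (fun u => u.Coprime q)).card : ℝ) ≤ q := by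
      have := card_filter_le (range q) (fun u => u.Coprime q)
      rw [card_range] at this
      exact_mod_cast this
    calc _ ≤ (q : ℝ) * (4 * B ^ 2 / q) := mul_le_mul_of_nonneg_right h3 (by positivity)
      _ = 4 * B ^ 2 := by field_simp
  have hnon : ∑ u ∈ (range q).filter (fun u => ¬ u.Coprime q),
      (SS (bb w N₀ N) H q t u - if u.Coprime q then ((z₂ : ℝ) - z₁) / (Nat.totient q : ℝ)
        else 0) ^ 2 ≤ 9 * (q.primeFactors.card : ℝ) ^ 2 * B ^ 2 := by
    have h2 : ∀ u ∈ (range q).filter (fun u => ¬ u.Coprime q),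
        (SS (bb w N₀ N) H q t u - if u.Coprime q then ((z₂ : ℝ) - z₁) / (Nat.totient q : ℝ)
          else 0) ^ 2 = |SS (bb w N₀ N) H q t u| ^ 2 := by
      intro u hu
      rw [mem_filter] at hu
      rw [if_neg hu.2, sub_zero, sq_abs]
    rw [sum_congr rfl h2]
    have h3 : ∑ u ∈ (range q).filter (fun u => ¬ u.Coprime q),
        |SS (bb w N₀ N) H q t u| ^ 2 ≤ (∑ u ∈ (range q).filter (fun u => ¬ u.Coprime q),
        |SS (bb w N₀ N) H q t u|) ^ 2 :=
      sum_sq_le_sq_sum_of_nonneg fun u _ => abs_nonneg _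
    refine h3.trans ?_
    have h4 : ∑ u ∈ (range q).filter (fun u => ¬ u.Coprime q), |SS (bb w N₀ N) H q t u| ≤
        3 * (q.primeFactors.card : ℝ) * B := by
      set a : ℕ → ℝ := fun n => w n * vonMangoldt n with ha
      have h5 : ∀ u ∈ (range q).filter (fun u => ¬ u.Coprime q), |SS (bb w N₀ N) H q t u| ≤
          ∑ n ∈ ((Ioc N₀ N).filter (fun n => ¬ n.Coprime q)).filter (fun n => n % q = u),
            |a n| := by
        intro u hu
        rw [mem_filter] at hu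
        rw [SS_eq w hN0]
        refine (abs_sum_le_sum_abs _ _).trans ?_
        refine sum_le_sum_of_subset_of_nonneg ?_ fun n _ _ => abs_nonneg _
        intro n hn
        rw [mem_filter, mem_Ioc] at hn
        rw [mem_filter, mem_filter, mem_Ioc]
        refine ⟨⟨by omega, ?_⟩, hn.2⟩
        intro hc
        apply hu.2
        have h6 : (n % q).gcd q = n.gcd q := by
          have := Nat.ModEq.gcd_eq (Nat.mod_modEq n q)
          exact this
        rw [Nat.Coprime, ← hn.2, h6]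
        exact hc
      refine (sum_le_sum h5).trans ?_
      have h6 : ∑ u ∈ (range q).filter (fun u => ¬ u.Coprime q),
          ∑ n ∈ ((Ioc N₀ N).filter (fun n => ¬ n.Coprime q)).filter (fun n => n % q = u), |a n| ≤
          ∑ n ∈ (Ioc N₀ N).filter (fun n => ¬ n.Coprime q), |a n| := by
        refine (sum_le_sum_of_subset_of_nonneg (filter_subset _ _)
          fun u _ _ => sum_nonneg fun n _ => abs_nonneg _).trans ?_
        rw [sum_fiberwise_of_maps_to]
        intro n _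
        rw [mem_range]
        exact Nat.mod_lt _ hq
      refine h6.trans ?_
      have h7 : ∑ n ∈ (Ioc N₀ N).filter (fun n => ¬ n.Coprime q), |a n| =
          ∑ n ∈ (Ioc N₀ N).filter (fun n => ¬ n.Coprime q ∧ a n ≠ 0), |a n| := by
        rw [← filter_filter]
        symm
        refine sum_filter_of_ne fun n _ hne => ?_
        intro h0
        rw [h0, abs_zero] at hne
        exact hne rfl
      rw [h7]
      have h8 : ∀ n ∈ (Ioc N₀ N).filter (fun n => ¬ n.Coprime q ∧ a n ≠ 0), |a n| ≤ 3 * B := by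
        intro n hn
        rw [mem_filter, mem_Ioc] at hn
        have hn1 : N₀ ≤ n - 1 := by omega
        have b1 := h1 n (by omega) hn.1.2
        have b2 := h1 (n - 1) hn1 (by omega)
        have b3 : psi w n 1 0 - psi w ((n - 1 : ℕ) : ℝ) 1 0 = a n := by
          rw [psi_sub w (by omega) (by norm_num)]
          have : (Ioc (n - 1) n).filter (fun n => n % 1 = 0) = {n} := by
            ext k
            rw [mem_filter, mem_Ioc, mem_singleton]
            constructor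
            · rintro ⟨c, _⟩
              omega
            · rintro rfl
              exact ⟨⟨by omega, le_rfl⟩, Nat.mod_one _⟩
          rw [this, sum_singleton]
        rw [← b3]
        have b4 : ((n - 1 : ℕ) : ℝ) = (n : ℝ) - 1 := by
          rw [Nat.cast_sub (by omega), Nat.cast_one]
        rw [b4] at b2 ⊢
        rw [abs_le] at b1 b2 ⊢
        constructor <;> linarith
      refine (sum_le_card_nsmul _ _ _ h8).trans ?_
      rw [nsmul_eq_mul]
      have h9 : (((Ioc N₀ N).filter (fun n => ¬ n.Coprime q ∧ a n ≠ 0)).card : ℝ) ≤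
          (q.primeFactors.card : ℝ) := by
        exact_mod_cast prime_pow_count w hN hq
      calc _ ≤ (q.primeFactors.card : ℝ) * (3 * B) :=
            mul_le_mul_of_nonneg_right h9 (by linarith)
        _ = _ := by ring
    have h10 : 0 ≤ ∑ u ∈ (range q).filter (fun u => ¬ u.Coprime q),
        |SS (bb w N₀ N) H q t u| := sum_nonneg fun u _ => abs_nonneg _
    refine (pow_le_pow_left₀ h10 h4 2).trans (le_of_eq ?_)
    ring
  have e3 : (4 + 9 * (q.primeFactors.card : ℝ) ^ 2) * B ^ 2 =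
      4 * B ^ 2 + 9 * (q.primeFactors.card : ℝ) ^ 2 * B ^ 2 := by ring
  rw [e3]
  exact add_le_add hco hnon

/-- **The square mean.** -/
theorem sq_bound {w : ℕ → ℝ} {N₀ N M Q : ℕ} {B K : ℝ} (hB : 1 ≤ B) (hN0 : N₀ ≤ N)
    (hN : N ≤ 2 * N₀ + 1) (hM : 1 ≤ M) (hMQ : 8 * M ≤ Q + 1) (hH : Q * M ≤ N₀)
    (hK : ∀ q ∈ Icc 1 Q, 4 + 9 * (q.primeFactors.card : ℝ) ^ 2 ≤ K ∧
      (q : ℝ) / (Nat.totient q : ℝ) ≤ K)
    (h : ∀ q ∈ Icc 1 Q, ∀ z : ℕ, N₀ ≤ z → z ≤ N → ∀ u : ℕ, u.Coprime q →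
      |psi w z q u - z / (Nat.totient q : ℝ)| ≤ B / √(q : ℝ)) :
    ∑ t ∈ range (N + 1), bb w N₀ N t ^ 2 ≤
      8 * ((N : ℝ) + 1) * K * (1 + B ^ 2 / (M : ℝ) ^ 2) * ∑ q ∈ Icc 1 Q, 1 / (q : ℝ) := by
  have hb : ∀ n, n ≤ N₀ → bb w N₀ N n = 0 := by
    intro n hn
    unfold bb
    rw [if_neg (by omega)]
  have hb2 : ∀ n, N + 1 ≤ n → bb w N₀ N n = 0 := by
    intro n hn
    unfold bb
    rw [if_neg (by omega)]
  have hQ1 : 1 ∈ Icc 1 Q := by rw [mem_Icc]; omega
  have h1 : ∀ z : ℕ, N₀ ≤ z → z ≤ N → |psi w z 1 0 - z| ≤ B := by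
    intro z hz1 hz2
    have := h 1 hQ1 z hz1 hz2 0 (Nat.coprime_one_right 0)
    rw [Nat.totient_one, Nat.cast_one, div_one, Real.sqrt_one, div_one] at this
    exact this
  refine (l2_bound hb hb2 (by omega) hM hMQ hH).trans ?_
  rw [mul_sum]
  refine sum_le_sum fun q hq => ?_
  have hq' := hq
  rw [mem_Icc] at hq'
  have hq0 : (0 : ℝ) < q := by exact_mod_cast hq'.1
  have hM0 : (0 : ℝ) < M := by exact_mod_cast hM
  have hφ : (0 : ℝ) < Nat.totient q := by exact_mod_cast Nat.totient_pos.2 hq'.1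
  obtain ⟨hK1, hK2⟩ := hK q hq
  have hK0 : 0 ≤ K := le_trans (by positivity) hK1
  rw [← mul_sum, sum_comm]
  have h2 : ∀ t ∈ range (N + 1), ∑ a ∈ (range q).filter (fun a => a.Coprime q),
      ‖GG (bb w N₀ N) (q * M) ((a : ℝ) / q) t‖ ^ 2 ≤
      2 * q * (M : ℝ) ^ 2 * K + 2 * q * (K * B ^ 2) := by
    intro t _
    obtain ⟨m, hm0, hm1, hm2⟩ := window (H := q * M) (t := t) hB hN0 hN hq'.1 (h q hq) h1
    refine (class_bound hq'.1 m).trans ?_
    have h3 : 2 * m ^ 2 / (Nat.totient q : ℝ) ≤ 2 * q * (M : ℝ) ^ 2 * K := by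
      push_cast at hm1
      have h4 : m ^ 2 ≤ ((q : ℝ) * M) ^ 2 := pow_le_pow_left₀ hm0 hm1 2
      calc 2 * m ^ 2 / (Nat.totient q : ℝ) ≤ 2 * ((q : ℝ) * M) ^ 2 / (Nat.totient q : ℝ) := by
            refine div_le_div_of_nonneg_right ?_ hφ.le
            linarith
        _ = 2 * q * (M : ℝ) ^ 2 * (q / (Nat.totient q : ℝ)) := by
            field_simp
        _ ≤ _ := mul_le_mul_of_nonneg_left hK2 (by positivity)
    have h5 : 2 * q * ∑ u ∈ range q, (SS (bb w N₀ N) (q * M) q t u -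
        if u.Coprime q then m / (Nat.totient q : ℝ) else 0) ^ 2 ≤ 2 * q * (K * B ^ 2) := by
      refine mul_le_mul_of_nonneg_left ?_ (by positivity)
      exact hm2.trans (mul_le_mul_of_nonneg_right hK1 (by positivity))
    exact add_le_add h3 h5
  have h6 := sum_le_sum h2
  rw [sum_const, card_range, nsmul_eq_mul] at h6
  have h7 : (0 : ℝ) ≤ 4 / ((q : ℝ) * M) ^ 2 := by positivity
  refine (mul_le_mul_of_nonneg_left h6 h7).trans (le_of_eq ?_)
  push_cast
  field_simp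
  ring

theorem totient_lower {q : ℕ} (hq : 1 ≤ q) :
    (q : ℝ) / (Nat.totient q : ℝ) ≤ 2 ^ q.primeFactors.card := by
  have hφ : (0 : ℝ) < Nat.totient q := by exact_mod_cast Nat.totient_pos.2 hq
  rw [div_le_iff₀ hφ]
  have h1 := Nat.totient_eq_mul_prod_factors q
  have h2 : (Nat.totient q : ℝ) = (q : ℝ) * ∏ p ∈ q.primeFactors, (1 - (p : ℝ)⁻¹) := by
    have := congrArg (fun z : ℚ => (z : ℝ)) h1
    push_cast at this
    exact this
  rw [h2]
  have h3 : (1 / 2 : ℝ) ^ q.primeFactors.card ≤ ∏ p ∈ q.primeFactors, (1 - (p : ℝ)⁻¹) := by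
    rw [← prod_const]
    refine prod_le_prod (fun _ _ => by norm_num) fun p hp => ?_
    have hp2 : (2 : ℝ) ≤ p := by exact_mod_cast (Nat.prime_of_mem_primeFactors hp).two_le
    have : (p : ℝ)⁻¹ ≤ 1 / 2 := by
      rw [one_div]
      exact inv_anti₀ (by norm_num) hp2
    linarith
  have h4 : (2 : ℝ) ^ q.primeFactors.card * (1 / 2) ^ q.primeFactors.card = 1 := by
    rw [← mul_pow]
    norm_num
  have hq0 : (0 : ℝ) ≤ q := Nat.cast_nonneg q
  calc (q : ℝ) = (q : ℝ) * (2 ^ q.primeFactors.card * (1 / 2) ^ q.primeFactors.card) := by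
        rw [h4, mul_one]
    _ ≤ (q : ℝ) * (2 ^ q.primeFactors.card * ∏ p ∈ q.primeFactors, (1 - (p : ℝ)⁻¹)) := by
        refine mul_le_mul_of_nonneg_left ?_ hq0
        exact mul_le_mul_of_nonneg_left h3 (by positivity)
    _ = _ := by ring

end Pool.Agent.H564.MG
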