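import Pool.Agent.H564.MG.Low
import Pool.Agent.H564.LH.Opt

/-! Montgomery's bound for weighted prime powers: the number of the prime powers which are needed. -/

set_option autoImplicit false

namespace Pool.Agent.H564.MG

open Finset Filter Topology
open ArithmeticFunction (vonMangoldt)

/-- the number of the prime powers `n ≤ N` which are used -/
noncomputable def used (w : ℕ → ℝ) (N : ℕ) : ℕ :=
  ((Icc 1 N).filter fun n => w n * vonMangoldt n ≠ 0).card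

theorem omega_bound {q : ℕ} : 4 + 9 * (q.primeFactors.card : ℝ) ^ 2 ≤ 13 * 4 ^ q.primeFactors.card ∧
    (2 : ℝ) ^ q.primeFactors.card ≤ 13 * 4 ^ q.primeFactors.card := by
  set k := q.primeFactors.card
  have h1 : (k : ℝ) ≤ 2 ^ k := by exact_mod_cast (Nat.lt_two_pow_self (n := k)).le
  have h2 : (k : ℝ) ^ 2 ≤ (2 ^ k) ^ 2 := pow_le_pow_left₀ (Nat.cast_nonneg k) h1 2
  have h3 : ((2 : ℝ) ^ k) ^ 2 = 4 ^ k := by
    rw [← pow_mul, mul_comm, pow_mul]
    norm_num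
  rw [h3] at h2
  have h4 : (1 : ℝ) ≤ 2 ^ k := one_le_pow₀ (by norm_num)
  have h5 : (2 : ℝ) ^ k ≤ 4 ^ k := pow_le_pow_left₀ (by norm_num) (by norm_num) k
  constructor <;> linarith

/-- **The number of prime powers which are needed.** -/
theorem size_lower {w : ℕ → ℝ} {y : ℝ} (hy0 : 0 ≤ y) (hy : y < 1 / 2) (h : Mont w y) {ε : ℝ}
    (hε : 0 < ε) : ∀ᶠ N : ℕ in atTop, (N : ℝ) ^ (1 - 2 * y - ε) ≤ (used w N : ℝ) := by
  set e : ℝ := min (ε / 16) ((1 / 2 - y) / 4) with he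
  have he0 : 0 < e := lt_min (by positivity) (by linarith)
  have heε : e ≤ ε / 16 := min_le_left _ _
  have hey : e ≤ (1 / 2 - y) / 4 := min_le_right _ _
  obtain ⟨C, x₀, hC⟩ := h e he0
  set C₁ : ℝ := max C 1 with hC₁
  have hC1 : 1 ≤ C₁ := le_max_right _ _
  obtain ⟨c, hc0, hc⟩ := Pool.Agent.H398R2.BV.pow_omega_le 4 (by norm_num) e he0
  set G : ℝ := 16 * 1025 * 13 * c * C₁ ^ 2 * 2 with hG
  have hG0 : 0 < G := by positivity
  have t := tendsto_natCast_atTop_atTop (R := ℝ)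
  have hlog := t.eventually ((isLittleO_log_rpow_atTop he0).bound (show (0 : ℝ) < 1 by norm_num))
  have hb1 := t.eventually ((tendsto_rpow_atTop (show 0 < ε - 4 * e by linarith)).eventually_ge_atTop
    (16 * G))
  have hb2 := t.eventually ((tendsto_rpow_atTop (show 0 < 1 / 2 - y - e by linarith)).eventually_ge_atTop
    (8 * C₁))
  filter_upwards [hlog, hb1, hb2, eventually_ge_atTop (max 1000 (2 * ⌈|x₀|⌉₊ + 2))] with
    N h1 h2 h3 hN
  have hN1000 : 1000 ≤ N := (le_max_left _ _).trans hN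
  have hNx : 2 * ⌈|x₀|⌉₊ + 2 ≤ N := (le_max_right _ _).trans hN
  have hNr : (1000 : ℝ) ≤ N := by exact_mod_cast hN1000
  have hNp : (0 : ℝ) < N := by linarith
  have hN1 : (1 : ℝ) ≤ N := by linarith
  have hlog0 : 0 ≤ Real.log N := Real.log_nonneg hN1
  rw [Real.norm_of_nonneg hlog0, one_mul, Real.norm_of_nonneg (by positivity)] at h1
  set N₀ : ℕ := N / 2 with hN₀
  have hN0N : N₀ ≤ N := by omega
  have hN2 : N ≤ 2 * N₀ + 1 := by omega
  have hN0r : ((N : ℝ) - 1) / 2 ≤ N₀ := by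
    have : (N : ℝ) ≤ 2 * N₀ + 1 := by exact_mod_cast hN2
    linarith
  set Q : ℕ := Nat.sqrt N₀ with hQ
  have hQ2 : Q * Q ≤ N₀ := Nat.sqrt_le N₀
  have hQ3 : N₀ < (Q + 1) * (Q + 1) := Nat.lt_succ_sqrt N₀
  have hQ16 : 16 ≤ Q + 1 := by
    by_contra hlt
    have : (Q + 1) * (Q + 1) ≤ 15 * 15 := Nat.mul_le_mul (by omega) (by omega)
    omega
  set M : ℕ := (Q + 1) / 8 with hM
  have hM1 : 1 ≤ M := by omega
  have hMQ : 8 * M ≤ Q + 1 := by omega
  have hMH : Q * M ≤ N₀ := (Nat.mul_le_mul_left Q (by omega : M ≤ Q)).trans hQ2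
  have hM16 : ((Q : ℝ) + 1) / 16 ≤ M := by
    have h4 : Q + 1 < 8 * M + 8 := by omega
    have h5 : (Q : ℝ) + 1 < 8 * M + 8 := by exact_mod_cast h4
    have h6 : (16 : ℝ) ≤ (Q : ℝ) + 1 := by exact_mod_cast hQ16
    linarith
  have hM2 : (N : ℝ) / 1024 ≤ (M : ℝ) ^ 2 := by
    have h4 : (N₀ : ℝ) < ((Q : ℝ) + 1) * ((Q : ℝ) + 1) := by exact_mod_cast hQ3
    have h5 : (((Q : ℝ) + 1) / 16) ^ 2 ≤ (M : ℝ) ^ 2 := pow_le_pow_left₀ (by positivity) hM16 2
    nlinarith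
  set B : ℝ := C₁ * (N : ℝ) ^ ((1 : ℝ) / 2 + y + e) with hB
  have hpB : 1 ≤ (N : ℝ) ^ ((1 : ℝ) / 2 + y + e) := Real.one_le_rpow hN1 (by linarith)
  have hB1 : 1 ≤ B := by rw [hB]; nlinarith
  set K : ℝ := 13 * (c * (N : ℝ) ^ e) with hK
  have hKall : ∀ q ∈ Icc 1 Q, 4 + 9 * (q.primeFactors.card : ℝ) ^ 2 ≤ K ∧
      (q : ℝ) / (Nat.totient q : ℝ) ≤ K := by
    intro q hq
    rw [mem_Icc] at hq
    have hqN : (q : ℝ) ≤ N := by
      have : q ≤ N := by
        have : Q ≤ Q * Q := Nat.le_mul_self Q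
        omega
      exact_mod_cast this
    have h4 := hc q hq.1
    have h5 : (q : ℝ) ^ e ≤ (N : ℝ) ^ e := Real.rpow_le_rpow (Nat.cast_nonneg q) hqN he0.le
    have h6 : 13 * (4 : ℝ) ^ q.primeFactors.card ≤ K := by
      rw [hK]
      refine mul_le_mul_of_nonneg_left ?_ (by norm_num)
      exact h4.trans (mul_le_mul_of_nonneg_left h5 hc0.le)
    exact ⟨omega_bound.1.trans h6, (totient_lower hq.1).trans (omega_bound.2.trans h6)⟩
  -- the hypothesis
  have hx0 : ∀ z : ℕ, N₀ ≤ z → x₀ ≤ z := by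
    intro z hz
    have h4 : ⌈|x₀|⌉₊ ≤ z := by omega
    have h5 : (⌈|x₀|⌉₊ : ℝ) ≤ z := by exact_mod_cast h4
    exact (le_abs_self x₀).trans ((Nat.le_ceil _).trans h5)
  have hhyp : ∀ q ∈ Icc 1 Q, ∀ z : ℕ, N₀ ≤ z → z ≤ N → ∀ u : ℕ, u.Coprime q →
      |psi w z q u - z / (Nat.totient q : ℝ)| ≤ B / √(q : ℝ) := by
    intro q hq z hz1 hz2 u hu
    rw [mem_Icc] at hq
    have hqz : (q : ℝ) ≤ √(z : ℝ) := by
      refine Real.le_sqrt_of_sq_le ?_
      have h4 : q * q ≤ z := (Nat.mul_le_mul hq.2 hq.2).trans (hQ2.trans hz1)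
      rw [pow_two]
      exact_mod_cast h4
    refine (hC z (hx0 z hz1) q u hq.1 hqz hu).trans ?_
    refine div_le_div_of_nonneg_right ?_ (Real.sqrt_nonneg _)
    have hzN : (z : ℝ) ≤ N := by exact_mod_cast hz2
    have h5 : (z : ℝ) ^ ((1 : ℝ) / 2 + y + e) ≤ (N : ℝ) ^ ((1 : ℝ) / 2 + y + e) :=
      Real.rpow_le_rpow (Nat.cast_nonneg z) hzN (by linarith)
    rw [hB]
    exact mul_le_mul (le_max_left _ _) h5 (by positivity) (by linarith)
  have hsq := sq_bound hB1 hN0N hN2 hM1 hMQ hMH hKall hhyp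
  -- the harmonic sum
  have hQ1 : 1 ≤ Q := by omega
  have hharm : ∑ q ∈ Icc 1 Q, 1 / (q : ℝ) ≤ 2 * (N : ℝ) ^ e := by
    refine (Pool.Agent.H564.LH.harm_le hQ1).trans ?_
    have h4 : Real.log Q ≤ Real.log N := by
      refine Real.log_le_log (by exact_mod_cast hQ1) ?_
      have : Q ≤ N := by
        have : Q ≤ Q * Q := Nat.le_mul_self Q
        omega
      exact_mod_cast this
    have h5 : 1 ≤ (N : ℝ) ^ e := Real.one_le_rpow hN1 he0.le
    linarith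
  -- the bound of the square mean
  have hB2 : B ^ 2 = C₁ ^ 2 * (N : ℝ) ^ (1 + 2 * y + 2 * e) := by
    rw [hB, mul_pow]
    congr 1
    rw [← Real.rpow_natCast, ← Real.rpow_mul hNp.le]
    congr 1
    push_cast
    ring
  have hNB : (N : ℝ) ≤ B ^ 2 := by
    rw [hB2]
    have h4 : (N : ℝ) ≤ (N : ℝ) ^ (1 + 2 * y + 2 * e) := by
      calc (N : ℝ) = (N : ℝ) ^ (1 : ℝ) := (Real.rpow_one _).symm
        _ ≤ _ := Real.rpow_le_rpow_of_exponent_le hN1 (by linarith)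
    have h5 : 1 ≤ C₁ ^ 2 := one_le_pow₀ hC1
    nlinarith
  have hmid : 1 + B ^ 2 / (M : ℝ) ^ 2 ≤ 1025 * B ^ 2 / N := by
    have hM0 : (0 : ℝ) < (M : ℝ) ^ 2 := lt_of_lt_of_le (by positivity) hM2
    have h4 : B ^ 2 / (M : ℝ) ^ 2 ≤ B ^ 2 / ((N : ℝ) / 1024) :=
      div_le_div_of_nonneg_left (by positivity) (by positivity) hM2
    have h5 : B ^ 2 / ((N : ℝ) / 1024) = 1024 * B ^ 2 / N := by
      field_simp
    have h6 : 1 ≤ B ^ 2 / N := by
      rw [le_div_iff₀ hNp, one_mul]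
      exact hNB
    have h7 : 1025 * B ^ 2 / N = 1024 * B ^ 2 / N + B ^ 2 / N := by ring
    linarith
  have hS : ∑ t ∈ range (N + 1), bb w N₀ N t ^ 2 ≤ G * (N : ℝ) ^ (1 + 2 * y + 4 * e) := by
    refine hsq.trans ?_
    have hK0 : 0 ≤ K := by rw [hK]; positivity
    calc 8 * ((N : ℝ) + 1) * K * (1 + B ^ 2 / (M : ℝ) ^ 2) * ∑ q ∈ Icc 1 Q, 1 / (q : ℝ) ≤
          8 * (2 * N) * K * (1025 * B ^ 2 / N) * (2 * (N : ℝ) ^ e) := by
          have h4 : (N : ℝ) + 1 ≤ 2 * N := by linarith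
          have h5 : 0 ≤ ∑ q ∈ Icc 1 Q, 1 / (q : ℝ) := sum_nonneg fun q _ => by positivity
          gcongr
      _ = 16 * 1025 * 13 * c * C₁ ^ 2 * 2 *
          ((N : ℝ) ^ e * (N : ℝ) ^ (1 + 2 * y + 2 * e) * (N : ℝ) ^ e) := by
          rw [hB2, hK]
          field_simp
          ring
      _ = G * (N : ℝ) ^ (1 + 2 * y + 4 * e) := by
          rw [← Real.rpow_add hNp, ← Real.rpow_add hNp, hG]
          congr 2
          ring
  -- the sum
  have hsum : (N : ℝ) / 4 ≤ ∑ t ∈ range (N + 1), bb w N₀ N t := by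
    have hQ1' : 1 ∈ Icc 1 Q := by rw [mem_Icc]; omega
    have h4 := hhyp 1 hQ1' N hN0N le_rfl 0 (Nat.coprime_one_right 0)
    have h5 := hhyp 1 hQ1' N₀ le_rfl hN0N 0 (Nat.coprime_one_right 0)
    rw [Nat.totient_one, Nat.cast_one, div_one, Real.sqrt_one, div_one] at h4 h5
    have h6 := psi_sub w hN0N (show 0 < 1 by norm_num)
    have h7 : ∑ n ∈ (Ioc N₀ N).filter (fun n => n % 1 = 0), w n * vonMangoldt n =
        ∑ t ∈ range (N + 1), bb w N₀ N t := by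
      unfold bb
      rw [← sum_filter]
      refine sum_congr ?_ fun _ _ => rfl
      ext n
      rw [mem_filter, mem_filter, mem_Ioc, mem_range]
      constructor
      · rintro ⟨a, _⟩
        exact ⟨by omega, a⟩
      · rintro ⟨_, a⟩
        exact ⟨a, Nat.mod_one n⟩
    rw [h7] at h6
    have h8 : (N₀ : ℝ) ≤ (N : ℝ) / 2 := Nat.cast_div_le
    have h9 : B ≤ (N : ℝ) / 8 := by
      rw [hB, le_div_iff₀ (by norm_num)]
      calc C₁ * (N : ℝ) ^ ((1 : ℝ) / 2 + y + e) * 8 =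
            (8 * C₁) * (N : ℝ) ^ ((1 : ℝ) / 2 + y + e) := by ring
        _ ≤ (N : ℝ) ^ (1 / 2 - y - e) * (N : ℝ) ^ ((1 : ℝ) / 2 + y + e) :=
            mul_le_mul_of_nonneg_right h3 (by positivity)
        _ = N := by
            rw [← Real.rpow_add hNp]
            rw [show 1 / 2 - y - e + (1 / 2 + y + e) = 1 by ring, Real.rpow_one]
    rw [abs_le] at h4 h5
    linarith
  -- Cauchy's inequality
  set U : Finset ℕ := (range (N + 1)).filter fun n => bb w N₀ N n ≠ 0 with hU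
  have hcs : (∑ t ∈ range (N + 1), bb w N₀ N t) ^ 2 ≤
      (U.card : ℝ) * ∑ t ∈ range (N + 1), bb w N₀ N t ^ 2 := by
    have h4 : ∑ t ∈ range (N + 1), bb w N₀ N t = ∑ t ∈ U, bb w N₀ N t := by
      rw [hU, sum_filter_ne_zero]
    rw [h4]
    refine sq_sum_le_card_mul_sum_sq.trans ?_
    refine mul_le_mul_of_nonneg_left ?_ (Nat.cast_nonneg _)
    exact sum_le_sum_of_subset_of_nonneg (filter_subset _ _) fun _ _ _ => sq_nonneg _
  have hUused : (U.card : ℝ) ≤ (used w N : ℝ) := by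
    have : U ⊆ (Icc 1 N).filter fun n => w n * vonMangoldt n ≠ 0 := by
      intro n hn
      rw [hU, mem_filter, mem_range] at hn
      unfold bb at hn
      by_cases hc : N₀ < n ∧ n ≤ N
      · rw [if_pos hc] at hn
        rw [mem_filter, mem_Icc]
        exact ⟨⟨by omega, hc.2⟩, hn.2⟩
      · rw [if_neg hc] at hn
        exact absurd rfl hn.2
    unfold used
    exact_mod_cast card_le_card this
  have hfin : ((N : ℝ) / 4) ^ 2 ≤ (used w N : ℝ) * (G * (N : ℝ) ^ (1 + 2 * y + 4 * e)) := by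
    calc ((N : ℝ) / 4) ^ 2 ≤ (∑ t ∈ range (N + 1), bb w N₀ N t) ^ 2 :=
          pow_le_pow_left₀ (by positivity) hsum 2
      _ ≤ (U.card : ℝ) * ∑ t ∈ range (N + 1), bb w N₀ N t ^ 2 := hcs
      _ ≤ _ := mul_le_mul hUused hS (sum_nonneg fun _ _ => sq_nonneg _) (Nat.cast_nonneg _)
  have e1 : (N : ℝ) ^ (1 - 2 * y - ε) * (16 * G) * (N : ℝ) ^ (1 + 2 * y + 4 * e) ≤ (N : ℝ) ^ 2 := by
    calc (N : ℝ) ^ (1 - 2 * y - ε) * (16 * G) * (N : ℝ) ^ (1 + 2 * y + 4 * e) ≤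
          (N : ℝ) ^ (1 - 2 * y - ε) * (N : ℝ) ^ (ε - 4 * e) * (N : ℝ) ^ (1 + 2 * y + 4 * e) := by
          gcongr
      _ = (N : ℝ) ^ 2 := by
          rw [← Real.rpow_add hNp, ← Real.rpow_add hNp, ← Real.rpow_natCast]
          congr 1
          push_cast
          ring
  have hp : 0 < G * (N : ℝ) ^ (1 + 2 * y + 4 * e) := by positivity
  have e2 : (N : ℝ) ^ (1 - 2 * y - ε) * (G * (N : ℝ) ^ (1 + 2 * y + 4 * e)) ≤
      (used w N : ℝ) * (G * (N : ℝ) ^ (1 + 2 * y + 4 * e)) := by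
    refine le_trans ?_ hfin
    rw [div_pow]
    linarith
  exact le_of_mul_le_mul_right e2 hp

end Pool.Agent.H564.MG
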